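import Mathlib

/-!
Finite presentability: kernels and extensions.
-/

set_option autoImplicit false

namespace Pool.Agent.NN

open Subgroup

theorem ker_fng {P Q : Type} [Group P] [Group Q] (φ : P →* Q) (hφ : Function.Surjective φ)
    [hP : Group.FG P] [hQ : Group.IsFinitelyPresented Q] :
    φ.ker.IsFinitelyNormallyGenerated := by
  obtain ⟨r, f, hf, S, hS, hSf⟩ := hQ.out
  obtain ⟨T, hT, hTfin⟩ := Group.fg_iff.1 hP
  choose lft hlft using hφ
  let a : FreeGroup (Fin r) →* P := FreeGroup.lift fun i => lft (f (FreeGroup.of i))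
  have ha : ∀ u, φ (a u) = f u := by
    intro u
    have : φ.comp a = f := by
      ext i
      simp [a, hlft]
    exact DFunLike.congr_fun this u
  choose u hu using fun p : P => hf (φ p)
  let K : Subgroup P := normalClosure (a '' S ∪ (fun g => g⁻¹ * a (u g)) '' T)
  refine ⟨a '' S ∪ (fun g => g⁻¹ * a (u g)) '' T, (hS.image a).union (hTfin.image _), ?_⟩
  change K = φ.ker
  have hle : K ≤ φ.ker := by
    apply normalClosure_le_normal
    rintro _ (⟨s, hs, rfl⟩ | ⟨g, hg, rfl⟩)
    · change φ (a s) = 1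
      rw [ha, ← MonoidHom.mem_ker, ← hSf]
      exact subset_normalClosure hs
    · change φ (g⁻¹ * a (u g)) = 1
      rw [map_mul, ha, hu, map_inv, inv_mul_cancel]
  apply le_antisymm hle
  have h1 : ∀ p : P, ∃ v, p⁻¹ * a v ∈ K := by
    intro p
    have hp : p ∈ closure T := by rw [hT]; trivial
    induction hp using closure_induction with
    | mem x hx => exact ⟨u x, subset_normalClosure (Or.inr ⟨x, hx, rfl⟩)⟩
    | one => exact ⟨1, by rw [map_one, mul_one, inv_one]; exact one_mem _⟩
    | mul x y _ _ hx hy =>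
      obtain ⟨v, hv⟩ := hx
      obtain ⟨w, hw⟩ := hy
      refine ⟨v * w, ?_⟩
      have : (x * y)⁻¹ * a (v * w) = (y⁻¹ * (x⁻¹ * a v) * y⁻¹⁻¹) * (y⁻¹ * a w) := by
        rw [map_mul]
        group
      rw [this]
      exact mul_mem (normalClosure_normal.conj_mem _ hv _) hw
    | inv x _ hx =>
      obtain ⟨v, hv⟩ := hx
      refine ⟨v⁻¹, ?_⟩
      have : x⁻¹⁻¹ * a v⁻¹ = x * (x⁻¹ * a v)⁻¹ * x⁻¹ := by
        rw [map_inv]
        group
      rw [this]
      exact normalClosure_normal.conj_mem _ (inv_mem hv) _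
  have h2 : f.ker ≤ K.comap a := by
    rw [← hSf]
    apply normalClosure_le_normal
    intro s hs
    exact subset_normalClosure (Or.inl ⟨s, hs, rfl⟩)
  intro p hp
  obtain ⟨v, hv⟩ := h1 p
  have h3 : v ∈ f.ker := by
    rw [MonoidHom.mem_ker, ← ha]
    have := hle hv
    rw [MonoidHom.mem_ker, map_mul, map_inv, MonoidHom.mem_ker.1 hp, inv_one, one_mul] at this
    exact this
  have h4 : a v ∈ K := h2 h3
  have h5 : p = a v * (p⁻¹ * a v)⁻¹ := by group
  rw [h5]
  exact mul_mem h4 (inv_mem hv)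

theorem fp_extension {N G H : Type} [Group N] [Group G] [Group H] (ι : N →* G) (π : G →* H)
    (hι : Function.Injective ι) (hπ : Function.Surjective π)
    (hex : ∀ g, π g = 1 ↔ ∃ n, ι n = g) [hN : Group.IsFinitelyPresented N]
    [hH : Group.IsFinitelyPresented H] (hNfg : Group.FG N) : Group.IsFinitelyPresented G := by
  obtain ⟨b, fH, hfH, S, hS, hSf⟩ := hH.out
  obtain ⟨T, hT, hTfin⟩ := Group.fg_iff.1 hNfg
  choose lft hlft using hπ
  let aH : FreeGroup (Fin b) →* G := FreeGroup.lift fun i => lft (fH (FreeGroup.of i))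
  have haH : ∀ u, π (aH u) = fH u := by
    intro u
    have : π.comp aH = fH := by
      ext i
      simp [aH, hlft]
    exact DFunLike.congr_fun this u
  let C := Monoid.Coprod N (FreeGroup (Fin b))
  let Φ : C →* G := Monoid.Coprod.lift ι aH
  have hΦl : ∀ n, Φ (Monoid.Coprod.inl n) = ι n := fun n => Monoid.Coprod.lift_apply_inl _ _ _
  have hΦr : ∀ v, Φ (Monoid.Coprod.inr v) = aH v := fun v => Monoid.Coprod.lift_apply_inr _ _ _
  -- conjugation elements
  have hc : ∀ (g : G) (n : N), ∃ n', ι n' = g * ι n * g⁻¹ := by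
    intro g n
    rw [← hex, map_mul, map_mul, (hex (ι n)).2 ⟨n, rfl⟩, mul_one, map_inv, mul_inv_cancel]
  choose cj hcj using hc
  have hs : ∀ s : S, ∃ n, ι n = aH s := by
    intro s
    rw [← hex, haH, ← MonoidHom.mem_ker, ← hSf]
    exact subset_normalClosure s.2
  choose us hus using hs
  let y : Fin b → FreeGroup (Fin b) := fun j => FreeGroup.of j
  let il : N →* C := Monoid.Coprod.inl
  let ir : FreeGroup (Fin b) →* C := Monoid.Coprod.inr
  let R1 : Set C := Set.range fun p : Fin b × T =>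
    ir (y p.1) * il p.2 * (ir (y p.1))⁻¹ * (il (cj (aH (y p.1)) p.2))⁻¹
  let R2 : Set C := Set.range fun p : Fin b × T =>
    (ir (y p.1))⁻¹ * il p.2 * ir (y p.1) * (il (cj (aH (y p.1))⁻¹ p.2))⁻¹
  let R3 : Set C := Set.range fun s : S => ir s * (il (us s))⁻¹
  let K : Subgroup C := normalClosure (R1 ∪ R2 ∪ R3)
  have hTf : Finite T := hTfin
  have hSfi : Finite S := hS
  have hfin : (R1 ∪ R2 ∪ R3).Finite :=
    ((Set.finite_range _).union (Set.finite_range _)).union (Set.finite_range _)
  have hKle : K ≤ Φ.ker := by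
    apply normalClosure_le_normal
    rintro _ ((⟨⟨j, t⟩, rfl⟩ | ⟨⟨j, t⟩, rfl⟩) | ⟨s, rfl⟩)
    · change Φ _ = 1
      rw [map_mul, map_mul, map_mul, map_inv, map_inv, hΦr, hΦl, hΦl, hcj]
      group
    · change Φ _ = 1
      rw [map_mul, map_mul, map_mul, map_inv, map_inv, hΦr, hΦl, hΦl, hcj]
      group
    · change Φ _ = 1
      rw [map_mul, map_inv, hΦr, hΦl, hus]
      group
  have hKn : K.Normal := normalClosure_normal
  let mk : C →* C ⧸ K := QuotientGroup.mk' K
  have hmk : ∀ c, mk c = 1 ↔ c ∈ K := fun c => QuotientGroup.eq_one_iff c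
  let A : Subgroup (C ⧸ K) := (mk.comp il).range
  have hAmem : ∀ x, x ∈ A ↔ ∃ n, mk (il n) = x := fun x => Iff.rfl
  -- conjugation by `y j` and `(y j)⁻¹`
  have key : ∀ (c : C), (∀ t : T, mk c * mk (il t) * (mk c)⁻¹ ∈ A) →
      ∀ a ∈ A, mk c * a * (mk c)⁻¹ ∈ A := by
    intro c hc a ha
    obtain ⟨n, rfl⟩ := ha
    have hn : n ∈ closure T := by rw [hT]; trivial
    change mk c * mk (il n) * (mk c)⁻¹ ∈ A
    induction hn using closure_induction with
    | mem x hx => exact hc ⟨x, hx⟩
    | one =>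
      rw [map_one, map_one, mul_one, mul_inv_cancel]
      exact one_mem _
    | mul x z _ _ hx hz =>
      have : mk c * mk (il (x * z)) * (mk c)⁻¹ =
          (mk c * mk (il x) * (mk c)⁻¹) * (mk c * mk (il z) * (mk c)⁻¹) := by
        rw [map_mul, map_mul]
        group
      rw [this]
      exact mul_mem hx hz
    | inv x _ hx =>
      have : mk c * mk (il x⁻¹) * (mk c)⁻¹ = (mk c * mk (il x) * (mk c)⁻¹)⁻¹ := by
        rw [map_inv, map_inv]
        group
      rw [this]
      exact inv_mem hx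
  have hA : A.Normal := by
    constructor
    intro a ha g
    obtain ⟨c, rfl⟩ := QuotientGroup.mk'_surjective K g
    change mk c * a * (mk c)⁻¹ ∈ A
    induction c using Monoid.Coprod.induction_on generalizing a with
    | inl n =>
      have : mk (Monoid.Coprod.inl n) ∈ A := ⟨n, rfl⟩
      exact mul_mem (mul_mem this ha) (inv_mem this)
    | inr v =>
      induction v using FreeGroup.induction_on generalizing a with
      | C1 =>
        rw [map_one, map_one, one_mul, inv_one, mul_one]
        exact ha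
      | of j =>
        refine key (Monoid.Coprod.inr (FreeGroup.of j)) (fun t => ?_) a ha
        refine ⟨cj (aH (y j)) t, ?_⟩
        change mk (il (cj (aH (y j)) t)) = mk (ir (y j)) * mk (il t) * (mk (ir (y j)))⁻¹
        symm
        rw [← mul_inv_eq_one]
        have h0 : mk (ir (y j) * il t * (ir (y j))⁻¹ * (il (cj (aH (y j)) t))⁻¹) = 1 := by
          rw [hmk]
          exact subset_normalClosure (Or.inl (Or.inl ⟨(j, t), rfl⟩))
        rw [map_mul, map_mul, map_mul, map_inv, map_inv] at h0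
        exact h0
      | inv_of j _ =>
        refine key (Monoid.Coprod.inr (FreeGroup.of j)⁻¹) (fun t => ?_) a ha
        refine ⟨cj (aH (y j))⁻¹ t, ?_⟩
        change mk (il (cj (aH (y j))⁻¹ t)) =
          mk (ir (y j)⁻¹) * mk (il t) * (mk (ir (y j)⁻¹))⁻¹
        symm
        rw [← mul_inv_eq_one]
        have h0 : mk ((ir (y j))⁻¹ * il t * ir (y j) * (il (cj (aH (y j))⁻¹ t))⁻¹) = 1 := by
          rw [hmk]
          exact subset_normalClosure (Or.inl (Or.inr ⟨(j, t), rfl⟩))
        rw [map_mul, map_mul, map_mul, map_inv, map_inv] at h0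
        rw [map_inv, map_inv, inv_inv]
        exact h0
      | mul v w hv hw =>
        have : mk (Monoid.Coprod.inr (v * w)) * a * (mk (Monoid.Coprod.inr (v * w)))⁻¹ =
            mk (Monoid.Coprod.inr v) *
              (mk (Monoid.Coprod.inr w) * a * (mk (Monoid.Coprod.inr w))⁻¹) *
              (mk (Monoid.Coprod.inr v))⁻¹ := by
          rw [map_mul, map_mul]
          group
        rw [this]
        exact hv _ (hw _ ha)
    | mul c d hc hd =>
      have : mk (c * d) * a * (mk (c * d))⁻¹ = mk c * (mk d * a * (mk d)⁻¹) * (mk c)⁻¹ := by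
        rw [map_mul]
        group
      rw [this]
      exact hc _ (hd _ ha)
  have h2 : fH.ker ≤ A.comap (mk.comp ir) := by
    rw [← hSf]
    apply normalClosure_le_normal
    intro s hs
    refine ⟨us ⟨s, hs⟩, ?_⟩
    change mk (il (us ⟨s, hs⟩)) = mk (ir s)
    symm
    rw [← mul_inv_eq_one, ← map_inv, ← map_mul, hmk]
    exact subset_normalClosure (Or.inr ⟨⟨s, hs⟩, rfl⟩)
  have h3 : ∀ c : C, ∃ a ∈ A, ∃ v, mk c = a * mk (ir v) := by
    intro c
    induction c using Monoid.Coprod.induction_on with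
    | inl n => exact ⟨mk (il n), ⟨n, rfl⟩, 1, by rw [map_one, map_one, mul_one]⟩
    | inr v => exact ⟨1, one_mem _, v, by rw [one_mul]⟩
    | mul c d hc hd =>
      obtain ⟨a, ha, v, hv⟩ := hc
      obtain ⟨a', ha', v', hv'⟩ := hd
      refine ⟨a * (mk (ir v) * a' * (mk (ir v))⁻¹), mul_mem ha (hA.conj_mem _ ha' _), v * v', ?_⟩
      rw [map_mul, hv, hv', map_mul, map_mul]
      group
  have hker : Φ.ker = K := by
    apply le_antisymm _ hKle
    intro c hc
    rw [MonoidHom.mem_ker] at hc
    obtain ⟨_, ⟨n, rfl⟩, v, hv⟩ := h3 c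
    have h4 : c⁻¹ * (il n * ir v) ∈ K := by
      rw [← hmk, map_mul, map_inv, hv, map_mul]
      change (mk (il n) * mk (ir v))⁻¹ * (mk (il n) * mk (ir v)) = 1
      group
    have h5 := hKle h4
    rw [MonoidHom.mem_ker, map_mul, map_inv, hc, inv_one, one_mul, map_mul, hΦl, hΦr] at h5
    have h6 : v ∈ fH.ker := by
      rw [MonoidHom.mem_ker, ← haH]
      have h7 := congr_arg π h5
      rw [map_mul, map_one, (hex (ι n)).2 ⟨n, rfl⟩, one_mul] at h7
      exact h7
    obtain ⟨n', hn'⟩ := h2 h6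
    have h8 : (ir v)⁻¹ * il n' ∈ K := by
      rw [← hmk, map_mul, map_inv]
      change (mk (ir v))⁻¹ * (mk.comp il) n' = 1
      rw [hn']
      change (mk (ir v))⁻¹ * mk (ir v) = 1
      group
    have h9 := hKle h8
    rw [MonoidHom.mem_ker, map_mul, map_inv, hΦr, hΦl, inv_mul_eq_one] at h9
    have h10 : n * n' = 1 := by
      apply hι
      rw [map_mul, ← h9, h5, map_one]
    rw [← hmk, hv]
    have h11 : mk (ir v) = (mk.comp il) n' := hn'.symm
    rw [h11, ← map_mul, h10, map_one]
  have hΦs : Function.Surjective Φ := by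
    intro g
    obtain ⟨v, hv⟩ := hfH (π g)
    have h4 : π (g * (aH v)⁻¹) = 1 := by
      rw [map_mul, map_inv, haH, hv, mul_inv_cancel]
    obtain ⟨n, hn⟩ := (hex _).1 h4
    refine ⟨il n * ir v, ?_⟩
    rw [map_mul, hΦl, hΦr, hn]
    group
  have hCfp : Group.IsFinitelyPresented C := inferInstance
  exact Group.IsFinitelyPresented.of_surjective Φ hΦs (by
    rw [hker]
    exact ⟨_, hfin, rfl⟩)

/-- conversion to the frozen form -/
theorem fp_iff (G : Type) [Group G] :
    (∃ (r : ℕ) (f : FreeGroup (Fin r) →* G) (S : Finset (FreeGroup (Fin r))),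
      Function.Surjective f ∧ f.ker = Subgroup.normalClosure (↑S : Set (FreeGroup (Fin r)))) ↔
    Group.IsFinitelyPresented G := by
  constructor
  · rintro ⟨r, f, S, hf, hS⟩
    exact ⟨r, f, hf, S, S.finite_toSet, hS.symm⟩
  · rintro ⟨r, f, hf, S, hS, hSf⟩
    refine ⟨r, f, hS.toFinset, hf, ?_⟩
    rw [hS.coe_toFinset, hSf]

theorem fg_of_fp (G : Type) [Group G] [h : Group.IsFinitelyPresented G] : Group.FG G := by
  obtain ⟨r, f, hf, _⟩ := h.out
  exact Group.fg_of_surjective hf

end Pool.Agent.NN
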