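import Mathlib

/-!
Calculus of modules of type `FP_m` over a ring.
-/

set_option autoImplicit false

namespace Pool.Agent.NN

/-- Modules of type `FP_m`. -/
def FP (R : Type) [Ring R] : ℕ → ∀ (M : Type) [AddCommGroup M] [Module R M], Prop
  | 0, M, _, _ => Module.Finite R M
  | m + 1, M, _, _ => ∃ (k : ℕ) (f : (Fin k → R) →ₗ[R] M), Function.Surjective f ∧
      FP R m (LinearMap.ker f)

variable {R : Type} [Ring R]

section basic

variable {M M' : Type} [AddCommGroup M] [Module R M] [AddCommGroup M'] [Module R M']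

theorem FP.equiv {m : ℕ} (h : FP R m M) (e : M ≃ₗ[R] M') : FP R m M' := by
  induction m generalizing M M' with
  | zero =>
    have : Module.Finite R M := h
    exact Module.Finite.equiv e
  | succ m ih =>
    obtain ⟨k, f, hf, h⟩ := h
    refine ⟨k, e.toLinearMap ∘ₗ f, e.surjective.comp hf, ?_⟩
    exact ih h (LinearEquiv.ofEq _ _ (LinearEquiv.ker_comp e f).symm)

theorem FP.congr_sub {m : ℕ} {p q : Submodule R M} (h : FP R m p) (e : p = q) : FP R m q :=
  h.equiv (LinearEquiv.ofEq _ _ e)

theorem FP.finite {m : ℕ} (h : FP R m M) : Module.Finite R M := by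
  cases m with
  | zero => exact h
  | succ m =>
    obtain ⟨k, f, hf, -⟩ := h
    exact Module.Finite.of_surjective f hf

theorem FP.of_subsingleton (m : ℕ) [Subsingleton M] : FP R m M := by
  induction m generalizing M with
  | zero =>
    change Module.Finite R M
    infer_instance
  | succ m ih =>
    exact ⟨0, 0, fun x => ⟨0, Subsingleton.elim _ _⟩, ih⟩

theorem FP.of_cover {m : ℕ} {X : Type} [AddCommGroup X] [Module R X] {k : ℕ}
    (e : (Fin k → R) ≃ₗ[R] X) (f : X →ₗ[R] M) (hf : Function.Surjective f)
    (h : FP R m (LinearMap.ker f)) : FP R (m + 1) M := by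
  refine ⟨k, f ∘ₗ e.toLinearMap, hf.comp e.surjective, ?_⟩
  refine h.equiv ?_
  refine LinearEquiv.symm (LinearEquiv.ofBijective
    ((e.toLinearMap.domRestrict (LinearMap.ker (f ∘ₗ e.toLinearMap))).codRestrict (LinearMap.ker f)
      (fun x => x.2)) ⟨?_, ?_⟩)
  · intro x y hxy
    apply Subtype.ext
    apply e.injective
    exact congr_arg Subtype.val hxy
  · intro y
    refine ⟨⟨e.symm y.1, ?_⟩, ?_⟩
    · rw [LinearMap.mem_ker]
      change f (e (e.symm y.1)) = 0
      rw [e.apply_symm_apply]
      exact y.2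
    · apply Subtype.ext
      exact e.apply_symm_apply y.1

theorem FP.free (m k : ℕ) : FP R m (Fin k → R) := by
  cases m with
  | zero =>
    change Module.Finite R (Fin k → R)
    infer_instance
  | succ m =>
    refine ⟨k, LinearMap.id, Function.surjective_id, ?_⟩
    have : Subsingleton (LinearMap.ker (LinearMap.id : (Fin k → R) →ₗ[R] (Fin k → R))) := by
      rw [LinearMap.ker_id]
      infer_instance
    exact FP.of_subsingleton m

theorem FP.of_succ {m : ℕ} (h : FP R (m + 1) M) : FP R m M := by
  induction m generalizing M with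
  | zero => exact h.finite
  | succ m ih =>
    obtain ⟨k, f, hf, h⟩ := h
    exact ⟨k, f, hf, ih h⟩

theorem FP.mono {m m' : ℕ} (hm : m' ≤ m) (h : FP R m M) : FP R m' M := by
  induction m with
  | zero =>
    have : m' = 0 := by omega
    rw [this]; exact h
  | succ m ih =>
    rcases Nat.lt_or_ge m m' with h1 | h1
    · have : m' = m + 1 := by omega
      rw [this]; exact h
    · exact ih h1 h.of_succ

end basic

section exact

variable {A B C : Type} [AddCommGroup A] [Module R A] [AddCommGroup B] [Module R B]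
  [AddCommGroup C] [Module R C]

/-- lifting through a surjection from a free module -/
theorem exists_lift_free {k : ℕ} (g : B →ₗ[R] C) (hg : Function.Surjective g)
    (c : (Fin k → R) →ₗ[R] C) : ∃ c' : (Fin k → R) →ₗ[R] B, g ∘ₗ c' = c :=
  Module.projective_lifting_property g c hg

/-- kernel of an injective-on-kernel pair: a tool to identify kernels -/
theorem FP.of_injective_surjective {m : ℕ} (f : A →ₗ[R] B) (hf : Function.Injective f)
    (hf' : Function.Surjective f) (h : FP R m A) : FP R m B :=
  h.equiv (LinearEquiv.ofBijective f ⟨hf, hf'⟩)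

theorem FP.ext {m : ℕ} (g : B →ₗ[R] C) (hg : Function.Surjective g)
    (hA : FP R m (LinearMap.ker g)) (hC : FP R m C) : FP R m B := by
  induction m generalizing B C with
  | zero =>
    have h1 : Module.Finite R (LinearMap.ker g) := hA
    have h2 : Module.Finite R C := hC
    change Module.Finite R B
    have h3 : Module.Finite R (B ⧸ LinearMap.ker g) :=
      Module.Finite.equiv (g.quotKerEquivOfSurjective hg).symm
    exact Module.Finite.of_submodule_quotient (LinearMap.ker g)
  | succ m ih =>
    obtain ⟨ka, a, ha, hka⟩ := hA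
    obtain ⟨kc, c, hc, hkc⟩ := hC
    obtain ⟨c', hc'⟩ := exists_lift_free g hg c
    have hc'' : ∀ y, g (c' y) = c y := fun y => LinearMap.congr_fun hc' y
    let h : (Fin ka → R) × (Fin kc → R) →ₗ[R] B :=
      LinearMap.coprod ((LinearMap.ker g).subtype ∘ₗ a) c'
    have hh : ∀ x y, h (x, y) = (a x : B) + c' y := fun x y => rfl
    have hsurj : Function.Surjective h := by
      intro b
      obtain ⟨y, hy⟩ := hc (g b)
      have : b - c' y ∈ LinearMap.ker g := by
        rw [LinearMap.mem_ker, map_sub, hc'', hy, sub_self]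
      obtain ⟨x, hx⟩ := ha ⟨b - c' y, this⟩
      refine ⟨(x, y), ?_⟩
      rw [hh, hx]
      change b - c' y + c' y = b
      rw [sub_add_cancel]
    let q : LinearMap.ker h →ₗ[R] LinearMap.ker c :=
      ((LinearMap.snd R _ _).domRestrict (LinearMap.ker h)).codRestrict (LinearMap.ker c) (by
        rintro ⟨⟨x, y⟩, hxy⟩
        rw [LinearMap.mem_ker]
        change c y = 0
        have h1 : (a x : B) + c' y = 0 := hxy
        have h2 := congr_arg g h1
        rw [map_add, map_zero, hc'', LinearMap.mem_ker.1 (a x).2, zero_add] at h2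
        exact h2)
    have hq : Function.Surjective q := by
      rintro ⟨y, hy⟩
      have h1 : -c' y ∈ LinearMap.ker g := by
        rw [LinearMap.mem_ker, map_neg, hc'', LinearMap.mem_ker.1 hy, neg_zero]
      obtain ⟨x, hx⟩ := ha ⟨-c' y, h1⟩
      refine ⟨⟨(x, y), ?_⟩, ?_⟩
      · rw [LinearMap.mem_ker, hh, hx]
        change -c' y + c' y = 0
        rw [neg_add_cancel]
      · rfl
    have hkq : FP R m (LinearMap.ker q) := by
      let e : LinearMap.ker a →ₗ[R] LinearMap.ker q :=
        LinearMap.codRestrict (LinearMap.ker q) (LinearMap.codRestrict (LinearMap.ker h)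
          ((LinearMap.inl R _ _).domRestrict (LinearMap.ker a)) (by
            rintro ⟨x, hx⟩
            rw [LinearMap.mem_ker]
            change h (x, 0) = 0
            rw [hh, LinearMap.mem_ker.1 hx, map_zero]
            exact add_zero _)) (by
          rintro ⟨x, hx⟩
          rw [LinearMap.mem_ker]
          rfl)
      refine FP.of_injective_surjective e ?_ ?_ hka
      · rintro ⟨x, hx⟩ ⟨y, hy⟩ hxy
        have h1 := congr_arg (fun z => z.1.1.1) hxy
        exact Subtype.ext h1
      · rintro ⟨⟨⟨x, y⟩, hxy⟩, h2⟩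
        have h3 : y = 0 := congr_arg Subtype.val (LinearMap.mem_ker.1 h2)
        subst h3
        have h4 : (a x : B) + c' 0 = 0 := hxy
        rw [map_zero, add_zero] at h4
        refine ⟨⟨x, ?_⟩, ?_⟩
        · rw [LinearMap.mem_ker]
          exact Subtype.ext h4
        · rfl
    have := ih q hq hkq hkc
    exact FP.of_cover ((LinearEquiv.sumArrowLequivProdArrow (Fin ka) (Fin kc) R R).symm.trans
      (LinearEquiv.funCongrLeft R R (finSumFinEquiv.symm)) |>.symm) h hsurj this

theorem FP.quot {m : ℕ} (g : B →ₗ[R] C) (hg : Function.Surjective g)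
    (hA : FP R m (LinearMap.ker g)) (hB : FP R (m + 1) B) : FP R (m + 1) C := by
  obtain ⟨k, b, hb, hkb⟩ := hB
  refine ⟨k, g ∘ₗ b, hg.comp hb, ?_⟩
  let q : LinearMap.ker (g ∘ₗ b) →ₗ[R] LinearMap.ker g :=
    (b.domRestrict (LinearMap.ker (g ∘ₗ b))).codRestrict (LinearMap.ker g) (fun x => x.2)
  have hq : Function.Surjective q := by
    rintro ⟨y, hy⟩
    obtain ⟨x, rfl⟩ := hb y
    exact ⟨⟨x, hy⟩, rfl⟩
  refine FP.ext q hq ?_ hA
  let e : LinearMap.ker b →ₗ[R] LinearMap.ker q :=
    LinearMap.codRestrict (LinearMap.ker q) (LinearMap.codRestrict (LinearMap.ker (g ∘ₗ b))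
      ((LinearMap.ker b).subtype) (by
        rintro ⟨x, hx⟩
        rw [LinearMap.mem_ker]
        change g (b x) = 0
        rw [LinearMap.mem_ker.1 hx, map_zero])) (by
      rintro ⟨x, hx⟩
      rw [LinearMap.mem_ker]
      exact Subtype.ext hx)
  refine FP.of_injective_surjective e ?_ ?_ hkb
  · rintro ⟨x, hx⟩ ⟨y, hy⟩ hxy
    exact Subtype.ext (congr_arg (fun z => z.1.1) hxy)
  · rintro ⟨⟨x, hx⟩, h2⟩
    exact ⟨⟨x, congr_arg Subtype.val (LinearMap.mem_ker.1 h2)⟩, rfl⟩

theorem FP.quot_zero (g : B →ₗ[R] C) (hg : Function.Surjective g)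
    (hB : FP R 0 B) : FP R 0 C := by
  have : Module.Finite R B := hB
  exact Module.Finite.of_surjective g hg

theorem FP.ker {m : ℕ} (g : B →ₗ[R] C) (hg : Function.Surjective g)
    (hB : FP R m B) (hC : FP R (m + 1) C) : FP R m (LinearMap.ker g) := by
  obtain ⟨k, c, hc, hkc⟩ := hC
  obtain ⟨c', hc'⟩ := exists_lift_free g hg c
  have hc'' : ∀ y, g (c' y) = c y := fun y => LinearMap.congr_fun hc' y
  -- the pullback
  let d : (Fin k → R) × B →ₗ[R] C := LinearMap.coprod c (-g)
  have hd : ∀ x b, d (x, b) = c x - g b := fun x b => by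
    simp [d, sub_eq_add_neg]
  let Y := LinearMap.ker d
  let pB : Y →ₗ[R] B := (LinearMap.snd R _ _).domRestrict Y
  have hpB : Function.Surjective pB := by
    intro b
    obtain ⟨x, hx⟩ := hc (g b)
    refine ⟨⟨(x, b), ?_⟩, rfl⟩
    change d (x, b) = 0
    rw [hd, hx, sub_self]
  have hY : FP R m Y := by
    refine FP.ext pB hpB ?_ hB
    let e : LinearMap.ker c →ₗ[R] LinearMap.ker pB :=
      LinearMap.codRestrict (LinearMap.ker pB) (LinearMap.codRestrict Y
        ((LinearMap.inl R _ _).domRestrict (LinearMap.ker c)) (by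
          rintro ⟨x, hx⟩
          change d (x, 0) = 0
          rw [hd, LinearMap.mem_ker.1 hx, map_zero, sub_self])) (by
        rintro ⟨x, hx⟩
        rfl)
    refine FP.of_injective_surjective e ?_ ?_ hkc
    · rintro ⟨x, hx⟩ ⟨y, hy⟩ hxy
      exact Subtype.ext (congr_arg (fun z => z.1.1.1) hxy)
    · rintro ⟨⟨⟨x, b⟩, hxb⟩, h2⟩
      have h3 : b = 0 := h2
      subst h3
      have h4 : d (x, 0) = 0 := hxb
      rw [hd, map_zero, sub_zero] at h4
      exact ⟨⟨x, h4⟩, rfl⟩
  -- the retraction
  let r : Y →ₗ[R] LinearMap.ker g :=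
    LinearMap.codRestrict (LinearMap.ker g)
      ((LinearMap.coprod (-c') LinearMap.id).domRestrict Y) (by
        rintro ⟨⟨x, b⟩, hxb⟩
        have h4 : d (x, b) = 0 := hxb
        rw [hd] at h4
        rw [LinearMap.mem_ker]
        change g (-c' x + b) = 0
        rw [map_add, map_neg, hc'', neg_add_eq_zero]
        exact sub_eq_zero.1 h4)
  have hr : Function.Surjective r := by
    rintro ⟨b, hb⟩
    refine ⟨⟨(0, b), ?_⟩, ?_⟩
    · change d (0, b) = 0
      rw [hd, map_zero, LinearMap.mem_ker.1 hb, sub_zero]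
    · apply Subtype.ext
      change -c' 0 + b = b
      rw [map_zero, neg_zero, zero_add]
  cases m with
  | zero => exact FP.quot_zero r hr hY
  | succ m =>
    refine FP.quot r hr ?_ hY
    let e : (Fin k → R) →ₗ[R] LinearMap.ker r :=
      LinearMap.codRestrict (LinearMap.ker r) (LinearMap.codRestrict Y
        (LinearMap.prod LinearMap.id c') (by
          intro x
          change d (x, c' x) = 0
          rw [hd, hc'', sub_self])) (by
        intro x
        rw [LinearMap.mem_ker]
        apply Subtype.ext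
        change -c' x + c' x = 0
        rw [neg_add_cancel])
    refine FP.of_injective_surjective e ?_ ?_ (FP.free m k)
    · intro x y hxy
      exact congr_arg (fun z => z.1.1.1) hxy
    · rintro ⟨⟨⟨x, b⟩, hxb⟩, h2⟩
      have h3 : -c' x + b = 0 := congr_arg Subtype.val (LinearMap.mem_ker.1 h2)
      have h4 : c' x = b := by
        rw [neg_add_eq_zero] at h3
        exact h3
      refine ⟨x, ?_⟩
      apply Subtype.ext
      apply Subtype.ext
      exact Prod.ext rfl h4

theorem FP.prod {m : ℕ} (hB : FP R m B) (hC : FP R m C) : FP R m (B × C) := by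
  refine FP.ext (LinearMap.snd R B C) (fun c => ⟨(0, c), rfl⟩) ?_ hC
  let e : B →ₗ[R] LinearMap.ker (LinearMap.snd R B C) :=
    LinearMap.codRestrict _ (LinearMap.inl R B C) (fun x => rfl)
  refine FP.of_injective_surjective e ?_ ?_ hB
  · intro x y hxy
    exact congr_arg (fun z => z.1.1) hxy
  · rintro ⟨⟨x, y⟩, hxy⟩
    have : y = 0 := hxy
    subst this
    exact ⟨x, rfl⟩

theorem FP.pi {m : ℕ} (r : ℕ) (hB : FP R m B) : FP R m (Fin r → B) := by
  induction r with
  | zero => exact FP.of_subsingleton m
  | succ r ih =>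
    have := (hB.prod ih)
    refine FP.of_injective_surjective
      ({ toFun := fun x => Fin.cons x.1 x.2
         map_add' := ?_
         map_smul' := ?_ } : B × (Fin r → B) →ₗ[R] (Fin (r + 1) → B)) ?_ ?_ this
    · intro x y
      funext i
      refine Fin.cases ?_ (fun i => ?_) i
      · rfl
      · rfl
    · intro c x
      funext i
      refine Fin.cases ?_ (fun i => ?_) i
      · rfl
      · rfl
    · intro x y hxy
      have h1 := congr_fun hxy 0
      refine Prod.ext h1 ?_
      funext i
      exact congr_fun hxy i.succ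
    · intro x
      refine ⟨(x 0, Fin.tail x), ?_⟩
      exact Fin.cons_self_tail x

end exact

end Pool.Agent.NN
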