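import Mathlib
import Pool.Agent.helper50.NN.FPCalc

/-!
Abstract lemmas on mapping cones of length two.
-/

set_option autoImplicit false

namespace Pool.Agent.NN

variable {R : Type} [Ring R]

section setup

variable {I' IL I Z' ZL Z : Type}
  [AddCommGroup I'] [Module R I'] [AddCommGroup IL] [Module R IL] [AddCommGroup I] [Module R I]
  [AddCommGroup Z'] [Module R Z'] [AddCommGroup ZL] [Module R ZL] [AddCommGroup Z] [Module R Z]

/-- The fibre product of `p : IL → I` and `Θ : Z → I`. -/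
def UU (p : IL →ₗ[R] I) (Θ : Z →ₗ[R] I) : Submodule R (IL × Z) :=
  LinearMap.ker (LinearMap.coprod p (-Θ))

theorem mem_UU (p : IL →ₗ[R] I) (Θ : Z →ₗ[R] I) (x : IL) (z : Z) :
    (x, z) ∈ UU p Θ ↔ p x = Θ z := by
  rw [UU, LinearMap.mem_ker]
  change p x + -Θ z = 0 ↔ _
  rw [← sub_eq_add_neg, sub_eq_zero]

/-- A map of short exact sequences `(j, q) → (i, p)`. -/
structure SES (i : I' →ₗ[R] IL) (p : IL →ₗ[R] I) (j : Z' →ₗ[R] ZL) (q : ZL →ₗ[R] Z)
    (Θ' : Z' →ₗ[R] I') (ΘL : ZL →ₗ[R] IL) (Θ : Z →ₗ[R] I) : Prop where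
  i_inj : Function.Injective i
  p_surj : Function.Surjective p
  ip : ∀ x, p x = 0 ↔ ∃ y, i y = x
  j_inj : Function.Injective j
  q_surj : Function.Surjective q
  jq : ∀ x, q x = 0 ↔ ∃ y, j y = x
  comm1 : ∀ z, i (Θ' z) = ΘL (j z)
  comm2 : ∀ z, p (ΘL z) = Θ (q z)

variable {i : I' →ₗ[R] IL} {p : IL →ₗ[R] I} {j : Z' →ₗ[R] ZL} {q : ZL →ₗ[R] Z}
    {Θ' : Z' →ₗ[R] I'} {ΘL : ZL →ₗ[R] IL} {Θ : Z →ₗ[R] I}

/-- The map `I' × ZL → U`. -/
def gmap (h : SES i p j q Θ' ΘL Θ) : I' × ZL →ₗ[R] UU p Θ :=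
  LinearMap.codRestrict (UU p Θ) (LinearMap.prod (LinearMap.coprod i ΘL)
    (q ∘ₗ LinearMap.snd R I' ZL)) (by
      rintro ⟨x, y⟩
      change (i x + ΘL y, q y) ∈ UU p Θ
      rw [mem_UU, map_add, h.comm2, (h.ip (i x)).2 ⟨x, rfl⟩, zero_add])

theorem gmap_apply (h : SES i p j q Θ' ΘL Θ) (x : I') (y : ZL) :
    (gmap h (x, y) : IL × Z) = (i x + ΘL y, q y) := rfl

theorem gmap_surj (h : SES i p j q Θ' ΘL Θ) : Function.Surjective (gmap h) := by
  rintro ⟨⟨x, z⟩, hxz⟩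
  rw [mem_UU] at hxz
  obtain ⟨y, rfl⟩ := h.q_surj z
  obtain ⟨x', hx'⟩ := (h.ip (x - ΘL y)).1 (by rw [map_sub, h.comm2, hxz, sub_self])
  refine ⟨(x', y), ?_⟩
  apply Subtype.ext
  rw [gmap_apply, hx', sub_add_cancel]

theorem gmap_eq_zero (h : SES i p j q Θ' ΘL Θ) (x : I') (y : ZL) :
    gmap h (x, y) = 0 ↔ ∃ z, y = -j z ∧ x = Θ' z := by
  constructor
  · intro h0
    have h1 := congr_arg (Subtype.val) h0
    rw [gmap_apply] at h1
    have h2 : i x + ΘL y = 0 := congr_arg Prod.fst h1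
    have h3 : q y = 0 := congr_arg Prod.snd h1
    obtain ⟨z, rfl⟩ := (h.jq y).1 h3
    refine ⟨-z, by rw [map_neg, neg_neg], ?_⟩
    apply h.i_inj
    rw [map_neg, map_neg, h.comm1]
    exact eq_neg_of_add_eq_zero_left h2
  · rintro ⟨z, rfl, rfl⟩
    apply Subtype.ext
    rw [gmap_apply]
    refine Prod.ext ?_ ?_
    · change i (Θ' z) + ΘL (-j z) = 0
      rw [map_neg, h.comm1, add_neg_cancel]
    · change q (-j z) = 0
      rw [map_neg, (h.jq (j z)).2 ⟨z, rfl⟩, neg_zero]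

section next

variable {IL' : Type} [AddCommGroup IL'] [Module R IL'] (p' : IL' →ₗ[R] I')
  (hp' : Function.Surjective p')

/-- The cover of `U`. -/
def cmap (h : SES i p j q Θ' ΘL Θ) : IL' × ZL →ₗ[R] UU p Θ :=
  gmap h ∘ₗ LinearMap.prodMap p' LinearMap.id

theorem cmap_apply (h : SES i p j q Θ' ΘL Θ) (x : IL') (y : ZL) :
    cmap p' h (x, y) = gmap h (p' x, y) := rfl

include hp' in
theorem cmap_surj (h : SES i p j q Θ' ΘL Θ) : Function.Surjective (cmap p' h) := by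
  intro u
  obtain ⟨⟨x, y⟩, rfl⟩ := gmap_surj h u
  obtain ⟨x', rfl⟩ := hp' x
  exact ⟨(x', y), rfl⟩

/-- The kernel of the cover is `U'`. -/
noncomputable def kerEquiv (h : SES i p j q Θ' ΘL Θ) :
    UU p' Θ' ≃ₗ[R] LinearMap.ker (cmap p' h) :=
  LinearEquiv.ofBijective
    (LinearMap.codRestrict (LinearMap.ker (cmap p' h))
      ((LinearMap.prodMap LinearMap.id (-j)).domRestrict (UU p' Θ')) (by
        rintro ⟨⟨x, z⟩, hxz⟩
        rw [mem_UU] at hxz
        rw [LinearMap.mem_ker]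
        change gmap h (p' x, -j z) = 0
        rw [gmap_eq_zero]
        exact ⟨z, rfl, hxz⟩)) (by
    constructor
    · rintro ⟨⟨x, z⟩, hxz⟩ ⟨⟨x', z'⟩, hxz'⟩ heq
      have h1 : (x, -j z) = (x', -j z') := congr_arg Subtype.val heq
      have h2 : x = x' := congr_arg Prod.fst h1
      have h3 : -j z = -j z' := congr_arg Prod.snd h1
      have h4 : z = z' := h.j_inj (neg_injective h3)
      subst h2
      subst h4
      rfl
    · rintro ⟨⟨x, y⟩, hxy⟩
      rw [LinearMap.mem_ker, cmap_apply, gmap_eq_zero] at hxy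
      obtain ⟨z, hz, hx⟩ := hxy
      refine ⟨⟨(x, z), ?_⟩, ?_⟩
      · rw [mem_UU]; exact hx
      · apply Subtype.ext
        exact Prod.ext rfl hz.symm)

include hp' in
theorem FP_U_succ (h : SES i p j q Θ' ΘL Θ) (hIL' : ∀ m, FP R m IL') (hZL : ∀ m, FP R m ZL) {m : ℕ}
    (hU' : FP R m (UU p' Θ')) : FP R (m + 1) (UU p Θ) :=
  FP.quot (cmap p' h) (cmap_surj p' hp' h) (hU'.equiv (kerEquiv p' h))
    ((hIL' _).prod (hZL _))

include hp' in
theorem FP_U_of_succ (h : SES i p j q Θ' ΘL Θ) (hIL' : ∀ m, FP R m IL') (hZL : ∀ m, FP R m ZL)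
    {m : ℕ} (hU : FP R (m + 1) (UU p Θ)) : FP R m (UU p' Θ') :=
  (FP.ker (cmap p' h) (cmap_surj p' hp' h) ((hIL' _).prod (hZL _)) hU).equiv (kerEquiv p' h).symm

end next

/-- `I' × ZL → I' / range Θ'` -/
def hmap (_ : SES i p j q Θ' ΘL Θ) : I' × ZL →ₗ[R] I' ⧸ LinearMap.range Θ' :=
  (LinearMap.range Θ').mkQ ∘ₗ LinearMap.fst R I' ZL

theorem hmap_surj (h : SES i p j q Θ' ΘL Θ) : Function.Surjective (hmap h) := by
  intro u
  obtain ⟨x, rfl⟩ := (LinearMap.range Θ').mkQ_surjective u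
  exact ⟨(x, 0), rfl⟩

theorem ker_le (h : SES i p j q Θ' ΘL Θ) : LinearMap.ker (gmap h) ≤ LinearMap.ker (hmap h) := by
  rintro ⟨x, y⟩ hxy
  rw [LinearMap.mem_ker, gmap_eq_zero] at hxy
  obtain ⟨z, -, rfl⟩ := hxy
  rw [LinearMap.mem_ker]
  change (LinearMap.range Θ').mkQ (Θ' z) = 0
  rw [Submodule.mkQ_apply, Submodule.Quotient.mk_eq_zero]
  exact ⟨z, rfl⟩

/-- `U → I' / range Θ'` -/
noncomputable def tmap (h : SES i p j q Θ' ΘL Θ) : UU p Θ →ₗ[R] I' ⧸ LinearMap.range Θ' :=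
  (LinearMap.ker (gmap h)).liftQ (hmap h) (ker_le h) ∘ₗ
    ((gmap h).quotKerEquivOfSurjective (gmap_surj h)).symm.toLinearMap

theorem tmap_gmap (h : SES i p j q Θ' ΘL Θ) (u : I' × ZL) : tmap h (gmap h u) = hmap h u := by
  have h1 : ((gmap h).quotKerEquivOfSurjective (gmap_surj h)).symm (gmap h u) =
      (LinearMap.ker (gmap h)).mkQ u := by
    rw [LinearEquiv.symm_apply_eq]
    rfl
  change (LinearMap.ker (gmap h)).liftQ (hmap h) (ker_le h)
    (((gmap h).quotKerEquivOfSurjective (gmap_surj h)).symm (gmap h u)) = _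
  rw [h1]
  rfl

theorem tmap_surj (h : SES i p j q Θ' ΘL Θ) : Function.Surjective (tmap h) := by
  intro u
  obtain ⟨v, rfl⟩ := hmap_surj h u
  exact ⟨gmap h v, tmap_gmap h v⟩

theorem coker_finite (h : SES i p j q Θ' ΘL Θ) (hU : FP R 0 (UU p Θ)) :
    Module.Finite R (I' ⧸ LinearMap.range Θ') := by
  have : Module.Finite R (UU p Θ) := hU
  exact Module.Finite.of_surjective (tmap h) (tmap_surj h)

theorem FP_U_zero (h : SES i p j q Θ' ΘL Θ) (hZL : FP R 0 ZL)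
    (hc : Module.Finite R (I' ⧸ LinearMap.range Θ')) : FP R 0 (UU p Θ) := by
  refine FP.ext (m := 0) (tmap h) (tmap_surj h) ?_ hc
  have hZ : Module.Finite R ZL := hZL
  let e : ZL →ₗ[R] LinearMap.ker (tmap h) :=
    LinearMap.codRestrict (LinearMap.ker (tmap h)) (gmap h ∘ₗ LinearMap.inr R I' ZL) (by
      intro y
      rw [LinearMap.mem_ker]
      change tmap h (gmap h (0, y)) = 0
      rw [tmap_gmap]
      rfl)
  have he : Function.Surjective e := by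
    rintro ⟨u, hu⟩
    obtain ⟨⟨x, y⟩, rfl⟩ := gmap_surj h u
    rw [LinearMap.mem_ker, tmap_gmap] at hu
    have h1 : (LinearMap.range Θ').mkQ x = 0 := hu
    rw [Submodule.mkQ_apply, Submodule.Quotient.mk_eq_zero] at h1
    obtain ⟨z, rfl⟩ := h1
    refine ⟨y + j z, ?_⟩
    apply Subtype.ext
    change gmap h (0, y + j z) = gmap h (Θ' z, y)
    rw [← sub_eq_zero, ← map_sub]
    change gmap h (0 - Θ' z, y + j z - y) = 0
    rw [gmap_eq_zero]
    refine ⟨-z, ?_, ?_⟩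
    · rw [map_neg, neg_neg, add_sub_cancel_left]
    · rw [map_neg, zero_sub]
  exact Module.Finite.of_surjective e he

end setup

section top

variable {IL I Z : Type} [AddCommGroup IL] [Module R IL] [AddCommGroup I] [Module R I]
  [AddCommGroup Z] [Module R Z] (p : IL →ₗ[R] I) (hp : Function.Surjective p) (Θ : Z →ₗ[R] I)

/-- `IL → I / range Θ` -/
def omap : IL →ₗ[R] I ⧸ LinearMap.range Θ := (LinearMap.range Θ).mkQ ∘ₗ p

include hp in
theorem omap_surj : Function.Surjective (omap p Θ) :=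
  ((LinearMap.range Θ).mkQ_surjective).comp hp

/-- `U → Ω` -/
def wmap : UU p Θ →ₗ[R] LinearMap.ker (omap p Θ) :=
  LinearMap.codRestrict (LinearMap.ker (omap p Θ))
    ((LinearMap.fst R IL Z).domRestrict (UU p Θ)) (by
      rintro ⟨⟨x, z⟩, hxz⟩
      rw [mem_UU] at hxz
      rw [LinearMap.mem_ker]
      change (LinearMap.range Θ).mkQ (p x) = 0
      rw [hxz, Submodule.mkQ_apply, Submodule.Quotient.mk_eq_zero]
      exact ⟨z, rfl⟩)

theorem wmap_surj : Function.Surjective (wmap p Θ) := by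
  rintro ⟨x, hx⟩
  rw [LinearMap.mem_ker] at hx
  have h1 : (LinearMap.range Θ).mkQ (p x) = 0 := hx
  rw [Submodule.mkQ_apply, Submodule.Quotient.mk_eq_zero] at h1
  obtain ⟨z, hz⟩ := h1
  refine ⟨⟨(x, z), ?_⟩, rfl⟩
  rw [mem_UU, hz]

/-- the kernel of `U → Ω` -/
noncomputable def wEquiv : LinearMap.ker Θ ≃ₗ[R] LinearMap.ker (wmap p Θ) :=
  LinearEquiv.ofBijective
    (LinearMap.codRestrict (LinearMap.ker (wmap p Θ)) (LinearMap.codRestrict (UU p Θ)
      ((LinearMap.inr R IL Z).domRestrict (LinearMap.ker Θ)) (by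
        rintro ⟨z, hz⟩
        change ((0 : IL), z) ∈ UU p Θ
        rw [mem_UU, LinearMap.mem_ker.1 hz, map_zero])) (by
      rintro ⟨z, hz⟩
      rfl)) (by
    constructor
    · rintro ⟨z, hz⟩ ⟨z', hz'⟩ heq
      exact Subtype.ext (congr_arg (fun u => u.1.1.2) heq)
    · rintro ⟨⟨⟨x, z⟩, hxz⟩, h0⟩
      have h1 : x = 0 := congr_arg Subtype.val (LinearMap.mem_ker.1 h0)
      subst h1
      rw [mem_UU, map_zero] at hxz
      exact ⟨⟨z, hxz.symm⟩, rfl⟩)

include hp in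
/-- From `U` to the cokernel. -/
theorem FP_coker_of_U (hIL : ∀ m, FP R m IL) {m : ℕ} (hU : FP R (m + 1) (UU p Θ))
    (hW : FP R m (LinearMap.ker Θ)) : FP R (m + 2) (I ⧸ LinearMap.range Θ) := by
  have h1 : FP R (m + 1) (LinearMap.ker (omap p Θ)) :=
    FP.quot (wmap p Θ) (wmap_surj p Θ) (hW.equiv (wEquiv p Θ)) hU
  exact FP.quot (omap p Θ) (omap_surj p hp Θ) h1 (hIL _)

include hp in
/-- From the cokernel to `U`. -/
theorem FP_U_of_coker (hIL : ∀ m, FP R m IL) {m : ℕ} (hC : FP R (m + 1) (I ⧸ LinearMap.range Θ))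
    (hW : FP R m (LinearMap.ker Θ)) : FP R m (UU p Θ) := by
  have h1 : FP R m (LinearMap.ker (omap p Θ)) :=
    FP.ker (omap p Θ) (omap_surj p hp Θ) (hIL _) hC
  exact FP.ext (wmap p Θ) (wmap_surj p Θ) (hW.equiv (wEquiv p Θ)) h1

end top

end Pool.Agent.NN
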