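import Mathlib
import Pool.Agent.helper50.NN.FPCalc

/-!
Modules over integral group rings.
-/

set_option autoImplicit false

namespace Pool.Agent.NN

/-- The integral group ring. -/
abbrev ZG (G : Type) [Group G] : Type := MonoidAlgebra ℤ G

/-- The group element as an element of the group ring. -/
noncomputable abbrev o {G : Type} [Group G] : G →* ZG G := MonoidAlgebra.of ℤ G

section modOf

variable {G V : Type} [Group G] [AddCommGroup V]

/-- A module over the group ring from an action. -/
noncomputable abbrev modOf (ρ : G →* Module.End ℤ V) : Module (ZG G) V :=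
  Module.compHom V (MonoidAlgebra.lift ℤ (Module.End ℤ V) G ρ).toRingHom

theorem modOf_smul (ρ : G →* Module.End ℤ V) (g : G) (v : V) :
    letI := modOf ρ
    (o g : ZG G) • v = ρ g v := by
  letI := modOf ρ
  change (MonoidAlgebra.lift ℤ (Module.End ℤ V) G ρ) (MonoidAlgebra.of ℤ G g) v = ρ g v
  rw [MonoidAlgebra.lift_of]

end modOf

section lin

variable {G V W : Type} [Group G] [AddCommGroup V] [Module (ZG G) V] [AddCommGroup W]
  [Module (ZG G) W]

/-- A linear map from an equivariant additive map. -/
def mkLin (f : V →+ W) (h : ∀ (g : G) (v : V), f ((o g : ZG G) • v) = (o g : ZG G) • f v) :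
    V →ₗ[ZG G] W where
  toFun := f
  map_add' := f.map_add
  map_smul' := by
    intro r v
    rw [RingHom.id_apply]
    induction r using MonoidAlgebra.induction_on with
    | of g => exact h g v
    | add x y hx hy => rw [add_smul, map_add, hx, hy, add_smul]
    | smul c x ih => rw [smul_assoc, map_zsmul, ih, smul_assoc]

@[simp]
theorem mkLin_apply (f : V →+ W)
    (h : ∀ (g : G) (v : V), f ((o g : ZG G) • v) = (o g : ZG G) • f v) (v : V) :
    mkLin f h v = f v := rfl

end lin

section semi

variable {G G' G'' V W X : Type} [Group G] [Group G'] [Group G'']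
  [AddCommGroup V] [Module (ZG G) V] [AddCommGroup W] [Module (ZG G') W]
  [AddCommGroup X] [Module (ZG G'') X]

/-- Semilinear additive maps. -/
def IsSemi (α : G →* G') (φ : V →+ W) : Prop :=
  ∀ (n : G) (v : V), φ ((o n : ZG G) • v) = (o (α n) : ZG G') • φ v

theorem IsSemi.smul {α : G →* G'} {φ : V →+ W} (h : IsSemi α φ) (a : ZG G) (v : V) :
    φ (a • v) = (MonoidAlgebra.mapDomainRingHom ℤ α a) • φ v := by
  induction a using MonoidAlgebra.induction_on with
  | of g =>
    rw [h g v]
    congr 1
    simp
  | add x y hx hy => rw [add_smul, map_add, hx, hy, map_add, add_smul]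
  | smul c x ih => rw [smul_assoc, map_zsmul, ih, map_zsmul, smul_assoc]

theorem IsSemi.comp {α : G →* G'} {β : G' →* G''} {φ : V →+ W} {ψ : W →+ X}
    (hφ : IsSemi α φ) (hψ : IsSemi β ψ) : IsSemi (β.comp α) (ψ.comp φ) := by
  intro n v
  change ψ (φ _) = _
  rw [hφ, hψ]
  rfl

theorem IsSemi.of_linear {V' : Type} [AddCommGroup V'] [Module (ZG G) V']
    (f : V →ₗ[ZG G] V') : IsSemi (MonoidHom.id G) f.toAddMonoidHom := by
  intro n v
  exact f.map_smul _ _

end semi

end Pool.Agent.NN
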