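import Mathlib
import Pool.Agent.helper50.NN.GrpMod

/-!
Group extensions and induced modules.
-/

set_option autoImplicit false

namespace Pool.Agent.NN

/-- A group extension `1 → N → G → H → 1`. -/
structure Ext (N G H : Type) [Group N] [Group G] [Group H] where
  /-- the inclusion -/
  ι : N →* G
  /-- the projection -/
  π : G →* H
  ι_inj : Function.Injective ι
  π_surj : Function.Surjective π
  exact : ∀ g, π g = 1 ↔ ∃ n, ι n = g

namespace Ext

variable {N G H : Type} [Group N] [Group G] [Group H] (E : Ext N G H)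

open Classical in
/-- A normalised section. -/
noncomputable def σ (h : H) : G := if h = 1 then 1 else Classical.choose (E.π_surj h)

theorem π_σ (h : H) : E.π (E.σ h) = h := by
  unfold σ
  split_ifs with h1
  · rw [map_one, h1]
  · exact Classical.choose_spec (E.π_surj h)

theorem σ_one : E.σ 1 = 1 := if_pos rfl

theorem π_ι (n : N) : E.π (E.ι n) = 1 := (E.exact _).2 ⟨n, rfl⟩

theorem c_exists (g : G) (h : H) : ∃ n, E.ι n = (E.σ (E.π g * h))⁻¹ * g * E.σ h := by
  rw [← E.exact]
  rw [map_mul, map_mul, map_inv, π_σ, π_σ]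
  group

/-- The cocycle. -/
noncomputable def c (g : G) (h : H) : N := Classical.choose (E.c_exists g h)

theorem ι_c (g : G) (h : H) : E.ι (E.c g h) = (E.σ (E.π g * h))⁻¹ * g * E.σ h :=
  Classical.choose_spec (E.c_exists g h)

theorem c_mul (g g' : G) (h : H) : E.c (g * g') h = E.c g (E.π g' * h) * E.c g' h := by
  apply E.ι_inj
  rw [map_mul, ι_c, ι_c, ι_c, map_mul, mul_assoc (E.π g)]
  group

theorem c_one (h : H) : E.c 1 h = 1 := by
  apply E.ι_inj
  rw [ι_c, map_one, map_one, one_mul]
  group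

theorem c_σ (h : H) : E.c (E.σ h) 1 = 1 := by
  apply E.ι_inj
  rw [ι_c, map_one, π_σ, mul_one, σ_one]
  group

theorem c_ι (n : N) : E.c (E.ι n) 1 = n := by
  apply E.ι_inj
  rw [ι_c, π_ι, mul_one, σ_one]
  group

/-- The induced module. -/
def Ind (_ : Ext N G H) (M : Type) [AddCommGroup M] : Type := H →₀ M

noncomputable instance (M : Type) [AddCommGroup M] : AddCommGroup (E.Ind M) :=
  inferInstanceAs (AddCommGroup (H →₀ M))

section

variable {M : Type} [AddCommGroup M]

/-- single -/
noncomputable def sg (h : H) : M →+ E.Ind M := Finsupp.singleAddHom h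

/-- The coefficient. -/
noncomputable def cf (h : H) : E.Ind M →+ M := Finsupp.applyAddHom h

theorem ind_ext {x y : E.Ind M} (h : ∀ a, E.cf a x = E.cf a y) : x = y := Finsupp.ext h

theorem cf_sg_same (h : H) (m : M) : E.cf h (E.sg h m) = m := by
  change (Finsupp.single h m) h = m
  rw [Finsupp.single_eq_same]

theorem cf_sg_ne {h h' : H} (hh : h' ≠ h) (m : M) : E.cf h' (E.sg h m) = 0 := by
  change (Finsupp.single h m) h' = 0
  rw [Finsupp.single_eq_of_ne hh]

theorem ind_induction {P : E.Ind M → Prop} (x : E.Ind M) (h0 : P 0)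
    (hadd : ∀ x y, P x → P y → P (x + y)) (hs : ∀ h m, P (E.sg h m)) : P x :=
  Finsupp.induction_linear (motive := P) x h0 hadd hs

theorem ind_hom_ext {V : Type} [AddCommGroup V] {f g : E.Ind M →+ V}
    (h : ∀ a m, f (E.sg a m) = g (E.sg a m)) : f = g := by
  ext x
  induction x using E.ind_induction with
  | h0 => rw [map_zero, map_zero]
  | hadd x y hx hy => rw [map_add, map_add, hx, hy]
  | hs a m => exact h a m

/-- lift -/
noncomputable def lf {V : Type} [AddCommGroup V] (f : H → M →+ V) : E.Ind M →+ V :=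
  Finsupp.liftAddHom f

theorem lf_sg {V : Type} [AddCommGroup V] (f : H → M →+ V) (h : H) (m : M) :
    E.lf f (E.sg h m) = f h m := by
  change Finsupp.liftAddHom f (Finsupp.single h m) = _
  rw [Finsupp.liftAddHom_apply_single]

end

section

variable {M : Type} [AddCommGroup M] [Module (ZG N) M]

/-- The action of a group element. -/
noncomputable def act0 (g : G) : E.Ind M →+ E.Ind M :=
  E.lf (fun h => (E.sg (E.π g * h)).comp
    (DistribSMul.toAddMonoidHom M (o (E.c g h) : ZG N)))

theorem act0_sg (g : G) (h : H) (m : M) :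
    E.act0 g (E.sg h m) = E.sg (E.π g * h) ((o (E.c g h) : ZG N) • m) := by
  rw [act0, lf_sg]
  rfl

/-- The action. -/
noncomputable def act : G →* Module.End ℤ (E.Ind M) where
  toFun g := (E.act0 g).toIntLinearMap
  map_one' := by
    apply LinearMap.toAddMonoidHom_injective
    apply E.ind_hom_ext
    intro h m
    change E.act0 1 (E.sg h m) = E.sg h m
    rw [act0_sg, map_one, one_mul, c_one, map_one, one_smul]
  map_mul' g g' := by
    apply LinearMap.toAddMonoidHom_injective
    apply E.ind_hom_ext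
    intro h m
    change E.act0 (g * g') (E.sg h m) = E.act0 g (E.act0 g' (E.sg h m))
    rw [act0_sg, act0_sg, act0_sg, c_mul, map_mul, map_mul, mul_smul, mul_assoc]

noncomputable instance : Module (ZG G) (E.Ind M) := modOf E.act

theorem o_sg (g : G) (h : H) (m : M) :
    (o g : ZG G) • E.sg h m = E.sg (E.π g * h) ((o (E.c g h) : ZG N) • m) := by
  rw [← act0_sg]
  exact modOf_smul E.act g (E.sg h m)

/-- The inclusion `M → Ind M`. -/
noncomputable def of : M →+ E.Ind M := E.sg 1

theorem o_of (g : G) (m : M) :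
    (o g : ZG G) • E.of m = E.sg (E.π g) ((o (E.c g 1) : ZG N) • m) := by
  rw [of, o_sg, mul_one]

theorem σ_of (h : H) (m : M) : (o (E.σ h) : ZG G) • E.of m = E.sg h m := by
  rw [o_of, π_σ, c_σ, map_one, one_smul]

theorem of_semi : IsSemi E.ι (E.of : M →+ E.Ind M) := by
  intro n m
  rw [o_of, π_ι, c_ι]
  rfl

variable {V : Type} [AddCommGroup V] [Module (ZG G) V]

/-- The universal property. -/
noncomputable def lift (β : M →+ V) (hβ : IsSemi E.ι β) : E.Ind M →ₗ[ZG G] V :=
  mkLin (E.lf (fun h => (DistribSMul.toAddMonoidHom V (o (E.σ h) : ZG G)).comp β)) (by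
    intro g x
    induction x using E.ind_induction with
    | h0 => rw [smul_zero, map_zero, smul_zero]
    | hadd x y hx hy => rw [smul_add, map_add, hx, hy, map_add, smul_add]
    | hs h m =>
      rw [o_sg, lf_sg, lf_sg]
      change (o (E.σ (E.π g * h)) : ZG G) • β ((o (E.c g h) : ZG N) • m) =
        (o g : ZG G) • ((o (E.σ h) : ZG G) • β m)
      rw [hβ, smul_smul, smul_smul, ← map_mul, ← map_mul, ι_c]
      congr 2
      group)

theorem lift_sg (β : M →+ V) (hβ : IsSemi E.ι β) (h : H) (m : M) :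
    E.lift β hβ (E.sg h m) = (o (E.σ h) : ZG G) • β m := by
  rw [lift, mkLin_apply, lf_sg]
  rfl

theorem lift_of (β : M →+ V) (hβ : IsSemi E.ι β) (m : M) :
    E.lift β hβ (E.of m) = β m := by
  rw [of, lift_sg, σ_one, map_one, one_smul]

theorem lin_ext {f g : E.Ind M →ₗ[ZG G] V} (h : ∀ m, f (E.of m) = g (E.of m)) : f = g := by
  apply LinearMap.toAddMonoidHom_injective
  apply E.ind_hom_ext
  intro a m
  change f _ = g _
  rw [← σ_of, map_smul, map_smul, h]

theorem span_of : Submodule.span (ZG G) (Set.range (E.of : M → E.Ind M)) = ⊤ := by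
  rw [eq_top_iff]
  intro x _
  induction x using E.ind_induction with
  | h0 => exact zero_mem _
  | hadd x y hx hy => exact add_mem (hx trivial) (hy trivial)
  | hs h m =>
    rw [← σ_of]
    exact Submodule.smul_mem _ _ (Submodule.subset_span ⟨m, rfl⟩)

section map

variable {M' M'' : Type} [AddCommGroup M'] [Module (ZG N) M'] [AddCommGroup M'']
  [Module (ZG N) M'']

theorem map_semi (f : M →ₗ[ZG N] M') : IsSemi E.ι (E.of.comp f.toAddMonoidHom) :=
  (IsSemi.of_linear f).comp E.of_semi

/-- Functoriality. -/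
noncomputable def map (f : M →ₗ[ZG N] M') : E.Ind M →ₗ[ZG G] E.Ind M' :=
  E.lift (E.of.comp f.toAddMonoidHom) (E.map_semi f)

theorem map_of (f : M →ₗ[ZG N] M') (m : M) : E.map f (E.of m) = E.of (f m) := by
  rw [map, lift_of]
  rfl

theorem map_sg (f : M →ₗ[ZG N] M') (h : H) (m : M) : E.map f (E.sg h m) = E.sg h (f m) := by
  rw [← σ_of, map_smul, map_of, σ_of]

theorem cf_map (f : M →ₗ[ZG N] M') (h : H) (x : E.Ind M) :
    E.cf h (E.map f x) = f (E.cf h x) := by
  induction x using E.ind_induction with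
  | h0 => rw [map_zero, map_zero, map_zero, map_zero]
  | hadd x y hx hy => rw [map_add, map_add, map_add, map_add, hx, hy]
  | hs a m =>
    rw [map_sg]
    by_cases hh : h = a
    · rw [hh, cf_sg_same, cf_sg_same]
    · rw [E.cf_sg_ne hh, E.cf_sg_ne hh, map_zero]

theorem map_inj (f : M →ₗ[ZG N] M') (hf : Function.Injective f) :
    Function.Injective (E.map f) := by
  intro x y hxy
  apply E.ind_ext
  intro a
  apply hf
  rw [← cf_map, ← cf_map, hxy]

theorem map_surj (f : M →ₗ[ZG N] M') (hf : Function.Surjective f) :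
    Function.Surjective (E.map f) := by
  intro y
  induction y using E.ind_induction with
  | h0 => exact ⟨0, map_zero _⟩
  | hadd x y hx hy =>
    obtain ⟨x', rfl⟩ := hx
    obtain ⟨y', rfl⟩ := hy
    exact ⟨x' + y', map_add _ _ _⟩
  | hs h m =>
    obtain ⟨m', rfl⟩ := hf m
    exact ⟨E.sg h m', E.map_sg f h m'⟩

theorem map_exact (i : M →ₗ[ZG N] M') (p : M' →ₗ[ZG N] M'')
    (hip : ∀ x, p x = 0 ↔ ∃ y, i y = x) (x : E.Ind M') :
    E.map p x = 0 ↔ ∃ y, E.map i y = x := by
  constructor
  · intro hx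
    have h1 : ∀ a, ∃ y, i y = E.cf a x := by
      intro a
      rw [← hip, ← cf_map, hx, map_zero]
    choose y hy using h1
    let x0 : H →₀ M' := x
    have hsum : (x0.sum fun h m => E.sg h m : E.Ind M') = x := Finsupp.sum_single x0
    refine ⟨x0.sum fun h _ => E.sg h (y h), ?_⟩
    rw [Finsupp.sum, map_sum]
    conv_rhs => rw [← hsum]
    rw [Finsupp.sum]
    refine Finset.sum_congr rfl fun a _ => ?_
    rw [map_sg, hy]
    rfl
  · rintro ⟨y, rfl⟩
    apply E.ind_ext
    intro a
    rw [cf_map, cf_map, (hip _).2 ⟨_, rfl⟩, map_zero]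

end map

/-- The map to the free module. -/
noncomputable def freeβ (k : ℕ) : (Fin k → ZG N) →+ (Fin k → ZG G) where
  toFun x j := MonoidAlgebra.mapDomainRingHom ℤ E.ι (x j)
  map_zero' := by
    funext j
    exact map_zero _
  map_add' x y := by
    funext j
    exact map_add _ _ _

theorem freeβ_semi (k : ℕ) : IsSemi E.ι (E.freeβ k) := by
  intro n v
  funext j
  change MonoidAlgebra.mapDomainRingHom ℤ E.ι ((o n : ZG N) * v j) =
    (o (E.ι n) : ZG G) * MonoidAlgebra.mapDomainRingHom ℤ E.ι (v j)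
  rw [map_mul]
  congr 1
  simp

theorem freeβ_single (k : ℕ) (j : Fin k) :
    E.freeβ k (Pi.single j (1 : ZG N)) = Pi.single j (1 : ZG G) := by
  funext l
  change MonoidAlgebra.mapDomainRingHom ℤ E.ι ((Pi.single j (1 : ZG N) : Fin k → ZG N) l) = _
  by_cases hl : l = j
  · subst hl
    rw [Pi.single_eq_same, Pi.single_eq_same, map_one]
  · rw [Pi.single_eq_of_ne hl, Pi.single_eq_of_ne hl, map_zero]

/-- The forward map. -/
noncomputable def freeF (k : ℕ) : E.Ind (Fin k → ZG N) →ₗ[ZG G] (Fin k → ZG G) :=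
  E.lift (E.freeβ k) (E.freeβ_semi k)

/-- The backward map. -/
noncomputable def freeB (k : ℕ) : (Fin k → ZG G) →ₗ[ZG G] E.Ind (Fin k → ZG N) :=
  Fintype.linearCombination (ZG G) (fun j => E.of (Pi.single j (1 : ZG N)))

theorem freeB_apply (k : ℕ) (x : Fin k → ZG G) :
    E.freeB k x = ∑ j, x j • E.of (Pi.single j (1 : ZG N)) :=
  Fintype.linearCombination_apply _ _ _

theorem freeF_freeB (k : ℕ) (x : Fin k → ZG G) : E.freeF k (E.freeB k x) = x := by
  rw [freeB_apply, map_sum]
  have h1 : ∀ j, E.freeF k (x j • E.of (Pi.single j (1 : ZG N))) = Pi.single j (x j) := by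
    intro j
    rw [map_smul, freeF, lift_of, freeβ_single, ← Pi.single_smul, smul_eq_mul, mul_one]
  rw [Finset.sum_congr rfl fun j _ => h1 j, Finset.univ_sum_single]

theorem freeB_freeβ (k : ℕ) (x : Fin k → ZG N) : E.freeB k (E.freeβ k x) = E.of x := by
  rw [freeB_apply]
  have h2 : ∀ j, (E.freeβ k x j) • E.of (Pi.single j (1 : ZG N) : Fin k → ZG N) =
      E.of (Pi.single j (x j) : Fin k → ZG N) := by
    intro j
    change MonoidAlgebra.mapDomainRingHom ℤ E.ι (x j) •
      E.of (Pi.single j (1 : ZG N) : Fin k → ZG N) = _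
    rw [← E.of_semi.smul, ← Pi.single_smul, smul_eq_mul, mul_one]
  rw [Finset.sum_congr rfl fun j _ => h2 j, ← map_sum, Finset.univ_sum_single]

theorem freeB_freeF (k : ℕ) (x : E.Ind (Fin k → ZG N)) : E.freeB k (E.freeF k x) = x := by
  have h : (E.freeB k).comp (E.freeF k) = LinearMap.id := by
    apply E.lin_ext
    intro m
    rw [LinearMap.comp_apply, freeF, lift_of, LinearMap.id_apply, freeB_freeβ]
  exact LinearMap.congr_fun h x

/-- The induced module of a free module is free. -/
noncomputable def freeEquiv (k : ℕ) : E.Ind (Fin k → ZG N) ≃ₗ[ZG G] (Fin k → ZG G) :=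
  LinearEquiv.ofBijective (E.freeF k)
    ⟨Function.LeftInverse.injective (E.freeB_freeF k),
      Function.RightInverse.surjective (E.freeF_freeB k)⟩

theorem FP_free (m k : ℕ) : FP (ZG G) m (E.Ind (Fin k → ZG N)) :=
  (FP.free m k).equiv (E.freeEquiv k).symm

theorem FP_Ind : ∀ (m : ℕ) (M : Type) [AddCommGroup M] [Module (ZG N) M],
    FP (ZG N) m M → FP (ZG G) m (E.Ind M)
  | 0, M, _, _, h => by
    have h0 : Module.Finite (ZG N) M := h
    obtain ⟨k, f, hf⟩ := Module.Finite.exists_fin' (ZG N) M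
    have h1 : Module.Finite (ZG G) (E.Ind (Fin k → ZG N)) := E.FP_free 0 k
    exact Module.Finite.of_surjective (E.map f) (E.map_surj f hf)
  | m + 1, M, _, _, h => by
    obtain ⟨k, f, hf, hk⟩ := h
    have ih := FP_Ind m _ hk
    let i : LinearMap.ker f →ₗ[ZG N] (Fin k → ZG N) := (LinearMap.ker f).subtype
    have hi : Function.Injective i := Subtype.val_injective
    have hex : ∀ x, f x = 0 ↔ ∃ y, i y = x := fun x =>
      ⟨fun hx => ⟨⟨x, hx⟩, rfl⟩, by rintro ⟨y, rfl⟩; exact y.2⟩
    let e : E.Ind (LinearMap.ker f) ≃ₗ[ZG G] LinearMap.ker (E.map f) :=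
      LinearEquiv.ofBijective (LinearMap.codRestrict (LinearMap.ker (E.map f)) (E.map i)
        (fun y => LinearMap.mem_ker.2 ((E.map_exact i f hex _).2 ⟨y, rfl⟩))) (by
        constructor
        · intro x y hxy
          exact E.map_inj i hi (congr_arg Subtype.val hxy)
        · rintro ⟨x, hx⟩
          obtain ⟨y, hy⟩ := (E.map_exact i f hex x).1 (LinearMap.mem_ker.1 hx)
          exact ⟨y, Subtype.ext hy⟩)
    exact FP.quot (E.map f) (E.map_surj f hf) (ih.equiv e) (E.FP_free _ k)

end

end Ext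

end Pool.Agent.NN
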