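import Mathlib
import Pool.Agent.helper50.NN.Ind

/-!
Semilinear endomorphisms and homotopy structures.
-/

set_option autoImplicit false

namespace Pool.Agent.NN

section words

variable {N : Type} [Group N] {r : ℕ}

/-- The twist attached to a word. -/
def αw (α : Fin r → N →* N) : List (Fin r) → N →* N
  | [] => MonoidHom.id N
  | x :: w => (αw α w).comp (α x)

/-- The value of a word in a group. -/
def wv {G : Type} [Group G] (f : Fin r → G) : List (Fin r) → G
  | [] => 1
  | x :: w => f x * wv f w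

/-- The operator of a word. -/
def opw {M : Type} [AddCommGroup M] (φ : Fin r → M →+ M) : List (Fin r) → M →+ M
  | [] => AddMonoidHom.id M
  | x :: w => (opw φ w).comp (φ x)

theorem opw_semi {M : Type} [AddCommGroup M] [Module (ZG N) M] {α : Fin r → N →* N}
    {φ : Fin r → M →+ M} (h : ∀ x, IsSemi (α x) (φ x)) :
    ∀ w, IsSemi (αw α w) (opw φ w)
  | [] => fun _ _ => rfl
  | x :: w => (h x).comp (opw_semi h w)

theorem opw_comm {M L : Type} [AddCommGroup M] [AddCommGroup L] {φ : Fin r → M →+ M}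
    {ψ : Fin r → L →+ L} (p : L →+ M) (h : ∀ x l, p (ψ x l) = φ x (p l)) :
    ∀ (w : List (Fin r)) (l : L), p (opw ψ w l) = opw φ w (p l)
  | [], l => rfl
  | x :: w, l => by
    change p (opw ψ w (ψ x l)) = opw φ w (φ x (p l))
    rw [opw_comm p h w, h]

end words

/-- Relation data over `N`. -/
structure RelData (N : Type) [Group N] where
  /-- number of letters -/
  r : ℕ
  /-- twists -/
  α : Fin r → N →* N
  /-- number of relations -/
  t : ℕ
  /-- words -/
  w : Fin t → List (Fin r)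
  /-- correction terms -/
  nn : Fin t → N
  rel : ∀ i n, nn i * αw α (w i) n = n * nn i

/-- A homotopy structure on a module. -/
structure HS {N : Type} [Group N] (D : RelData N) (M : Type) [AddCommGroup M]
    [Module (ZG N) M] where
  /-- the operators -/
  φ : Fin D.r → M →+ M
  semi : ∀ x, IsSemi (D.α x) (φ x)
  thin : ∀ i, ∃ (k : ℕ) (a : M →ₗ[ZG N] (Fin k → ZG N)) (s : (Fin k → ZG N) →ₗ[ZG N] M),
    ∀ m, (o (D.nn i) : ZG N) • opw φ (D.w i) m = m + s (a m)

section trivial

/-- The augmentation. -/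
noncomputable def aug (G : Type) [Group G] : ZG G →+* ℤ :=
  (MonoidAlgebra.lift ℤ ℤ G (1 : G →* ℤ)).toRingHom

theorem aug_o {G : Type} [Group G] (g : G) : aug G (o g) = 1 := by
  change MonoidAlgebra.lift ℤ ℤ G (1 : G →* ℤ) (MonoidAlgebra.of ℤ G g) = 1
  rw [MonoidAlgebra.lift_of]
  rfl

/-- The trivial module. -/
def Triv (G : Type) [Group G] : Type := ℤ

noncomputable instance (G : Type) [Group G] : AddCommGroup (Triv G) :=
  inferInstanceAs (AddCommGroup ℤ)

noncomputable instance (G : Type) [Group G] : Module (ZG G) (Triv G) :=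
  Module.compHom ℤ (aug G)

theorem triv_smul {G : Type} [Group G] (a : ZG G) (m : Triv G) :
    a • m = (show Triv G from (aug G a * (show ℤ from m) : ℤ)) := rfl

theorem triv_o {G : Type} [Group G] (g : G) (m : Triv G) : (o g : ZG G) • m = m := by
  rw [triv_smul, aug_o, one_mul]

/-- The trivial module has a homotopy structure. -/
noncomputable def HS.triv {N : Type} [Group N] (D : RelData N) : HS D (Triv N) where
  φ _ := AddMonoidHom.id _
  semi x n v := by
    rw [triv_o, triv_o]
  thin i := by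
    refine ⟨0, 0, 0, fun m => ?_⟩
    rw [triv_o, LinearMap.zero_apply, add_zero]
    have : ∀ (w : List (Fin D.r)) (m : Triv N),
        opw (fun _ => AddMonoidHom.id (Triv N)) w m = m := by
      intro w
      induction w with
      | nil => intro m; rfl
      | cons x w ih => intro m; exact ih m
    exact this _ m

end trivial

section step

variable {N : Type} [Group N] {D : RelData N} {M : Type} [AddCommGroup M] [Module (ZG N) M]
  {k : ℕ} (p : (Fin k → ZG N) →ₗ[ZG N] M) (hp : Function.Surjective p)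

/-- A semilinear endomorphism of a free module with prescribed values. -/
noncomputable def semiFree (α : N →* N) (y : Fin k → (Fin k → ZG N)) :
    (Fin k → ZG N) →+ (Fin k → ZG N) where
  toFun x := ∑ j, MonoidAlgebra.mapDomainRingHom ℤ α (x j) • y j
  map_zero' := by
    refine Finset.sum_eq_zero fun j _ => ?_
    change MonoidAlgebra.mapDomainRingHom ℤ α 0 • y j = 0
    rw [map_zero, zero_smul]
  map_add' a b := by
    rw [← Finset.sum_add_distrib]
    refine Finset.sum_congr rfl fun j _ => ?_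
    rw [Pi.add_apply, map_add, add_smul]

theorem semiFree_semi (α : N →* N) (y : Fin k → (Fin k → ZG N)) :
    IsSemi α (semiFree α y) := by
  intro n v
  change ∑ j, MonoidAlgebra.mapDomainRingHom ℤ α ((o n : ZG N) * v j) • y j =
    (o (α n) : ZG N) • ∑ j, MonoidAlgebra.mapDomainRingHom ℤ α (v j) • y j
  rw [Finset.smul_sum]
  refine Finset.sum_congr rfl fun j _ => ?_
  rw [map_mul, mul_smul]
  congr 1
  simp

include hp in
theorem exists_semi_lift {α : N →* N} {φ : M →+ M} (h : IsSemi α φ) :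
    ∃ ψ : (Fin k → ZG N) →+ (Fin k → ZG N), IsSemi α ψ ∧ ∀ x, p (ψ x) = φ (p x) := by
  choose y hy using fun j : Fin k => hp (φ (p (Pi.single j 1)))
  refine ⟨semiFree α y, semiFree_semi α y, fun x => ?_⟩
  change p (∑ j, MonoidAlgebra.mapDomainRingHom ℤ α (x j) • y j) = _
  have hx : x = ∑ j, x j • (Pi.single j (1 : ZG N) : Fin k → ZG N) := by
    conv_lhs => rw [← Finset.univ_sum_single x]
    refine Finset.sum_congr rfl fun j _ => ?_
    rw [← Pi.single_smul, smul_eq_mul, mul_one]
  conv_rhs => rw [hx]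
  rw [map_sum, map_sum, map_sum]
  refine Finset.sum_congr rfl fun j _ => ?_
  rw [map_smul, map_smul, h.smul, hy]

/-- Restriction of an additive endomorphism to the kernel. -/
noncomputable def kerRestr (ψ : (Fin k → ZG N) →+ (Fin k → ZG N)) (φ : M →+ M)
    (h : ∀ x, p (ψ x) = φ (p x)) : LinearMap.ker p →+ LinearMap.ker p where
  toFun x := ⟨ψ x, by rw [LinearMap.mem_ker, h, LinearMap.mem_ker.1 x.2, map_zero]⟩
  map_zero' := Subtype.ext (map_zero ψ)
  map_add' x y := Subtype.ext (map_add ψ _ _)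

/-- Lifted operators. -/
theorem exists_lifts (hs : HS D M) (hp : Function.Surjective p) :
    ∃ ψ : Fin D.r → (Fin k → ZG N) →+ (Fin k → ZG N), (∀ x, IsSemi (D.α x) (ψ x)) ∧
      ∀ x l, p (ψ x l) = hs.φ x (p l) := by
  choose ψ h1 h2 using fun x => exists_semi_lift p hp (hs.semi x)
  exact ⟨ψ, h1, h2⟩

/-- The homotopy structure on the kernel. -/
noncomputable def HS.ker (hs : HS D M) (hp : Function.Surjective p)
    (ψ : Fin D.r → (Fin k → ZG N) →+ (Fin k → ZG N)) (h1 : ∀ x, IsSemi (D.α x) (ψ x))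
    (h2 : ∀ x l, p (ψ x l) = hs.φ x (p l)) : HS D (LinearMap.ker p) where
  φ x := kerRestr p (ψ x) (hs.φ x) (h2 x)
  semi x n v := Subtype.ext (h1 x n v)
  thin i := by
    obtain ⟨k', a, s, has⟩ := hs.thin i
    obtain ⟨s', hs'⟩ := exists_lift_free p hp s
    have hlin : ∀ (n : N) (v : Fin k → ZG N),
        (o (D.nn i) : ZG N) • opw ψ (D.w i) ((o n : ZG N) • v) =
          (o n : ZG N) • (o (D.nn i) : ZG N) • opw ψ (D.w i) v := by
      intro n v
      rw [opw_semi h1, smul_smul, smul_smul, ← map_mul, ← map_mul, D.rel]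
    let T : (Fin k → ZG N) →ₗ[ZG N] (Fin k → ZG N) :=
      mkLin ((DistribSMul.toAddMonoidHom _ (o (D.nn i) : ZG N)).comp (opw ψ (D.w i))) hlin
    have hT : ∀ v, T v = (o (D.nn i) : ZG N) • opw ψ (D.w i) v := fun v => rfl
    let u : (Fin k → ZG N) →ₗ[ZG N] (Fin k → ZG N) :=
      T - LinearMap.id - s' ∘ₗ a ∘ₗ p
    have hu : ∀ v, u v ∈ LinearMap.ker p := by
      intro v
      rw [LinearMap.mem_ker]
      change p (T v - v - s' (a (p v))) = 0
      rw [map_sub, map_sub, hT, map_smul]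
      have h3 : p (opw ψ (D.w i) v) = opw hs.φ (D.w i) (p v) :=
        opw_comm p.toAddMonoidHom h2 (D.w i) v
      have h4 : p (s' (a (p v))) = s (a (p v)) := LinearMap.congr_fun hs' _
      rw [h3, h4, has]
      abel
    refine ⟨k, (LinearMap.ker p).subtype, LinearMap.codRestrict (LinearMap.ker p) u hu, ?_⟩
    intro m
    apply Subtype.ext
    change (o (D.nn i) : ZG N) • (opw (fun x => kerRestr p (ψ x) (hs.φ x) (h2 x)) (D.w i) m :
      Fin k → ZG N) = m + (T m - m - s' (a (p m)))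
    rw [LinearMap.mem_ker.1 m.2, map_zero, map_zero, sub_zero, hT, add_sub_cancel]
    congr 1
    exact opw_comm (φ := ψ) ((LinearMap.ker p).subtype.toAddMonoidHom) (fun x l => rfl)
      (D.w i) m

end step

section Phi

variable {N G H : Type} [Group N] [Group G] [Group H] (E : Ext N G H)
  {M M' : Type} [AddCommGroup M] [Module (ZG N) M] [AddCommGroup M'] [Module (ZG N) M']

/-- `α` is conjugation by `g⁻¹`. -/
def IsConj (g : G) (α : N →* N) : Prop := ∀ n, E.ι (α n) = g⁻¹ * E.ι n * g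

theorem Phi_semi {g : G} {α : N →* N} (hα : IsConj E g α) {φ : M →+ M'} (hφ : IsSemi α φ) :
    IsSemi E.ι ((DistribSMul.toAddMonoidHom (E.Ind M') (o g : ZG G)).comp (E.of.comp φ)) := by
  intro n v
  change (o g : ZG G) • E.of (φ ((o n : ZG N) • v)) =
    (o (E.ι n) : ZG G) • (o g : ZG G) • E.of (φ v)
  rw [hφ, E.of_semi, smul_smul, smul_smul, ← map_mul, ← map_mul, hα]
  congr 2
  group

/-- The operator `Φ`. -/
noncomputable def Phi {g : G} {α : N →* N} (hα : IsConj E g α) {φ : M →+ M'}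
    (hφ : IsSemi α φ) : E.Ind M →ₗ[ZG G] E.Ind M' :=
  E.lift _ (Phi_semi E hα hφ)

theorem Phi_of {g : G} {α : N →* N} (hα : IsConj E g α) {φ : M →+ M'}
    (hφ : IsSemi α φ) (m : M) : Phi E hα hφ (E.of m) = (o g : ZG G) • E.of (φ m) := by
  rw [Phi, E.lift_of]
  rfl

theorem Phi_comm {L L' : Type} [AddCommGroup L] [Module (ZG N) L] [AddCommGroup L']
    [Module (ZG N) L'] {g : G} {α : N →* N} (hα : IsConj E g α) {φ : M →+ M'}
    (hφ : IsSemi α φ) {ψ : L →+ L'} (hψ : IsSemi α ψ) (p : L →ₗ[ZG N] M)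
    (p' : L' →ₗ[ZG N] M') (h : ∀ x, p' (ψ x) = φ (p x)) (x : E.Ind L) :
    E.map p' (Phi E hα hψ x) = Phi E hα hφ (E.map p x) := by
  have : (E.map p').comp (Phi E hα hψ) = (Phi E hα hφ).comp (E.map p) := by
    apply E.lin_ext
    intro m
    rw [LinearMap.comp_apply, LinearMap.comp_apply, Phi_of, map_smul, E.map_of, E.map_of,
      Phi_of, h]
  exact LinearMap.congr_fun this x

/-- The operator `Θ`. -/
noncomputable def Theta {r : ℕ} (f : Fin r → G) {α : Fin r → N →* N}
    (hα : ∀ x, IsConj E (f x) (α x)) {φ : Fin r → M →+ M} (hφ : ∀ x, IsSemi (α x) (φ x)) :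
    (Fin r → E.Ind M) →ₗ[ZG G] E.Ind M :=
  ∑ x, (Phi E (hα x) (hφ x) - LinearMap.id) ∘ₗ LinearMap.proj x

theorem Theta_apply {r : ℕ} (f : Fin r → G) {α : Fin r → N →* N}
    (hα : ∀ x, IsConj E (f x) (α x)) {φ : Fin r → M →+ M} (hφ : ∀ x, IsSemi (α x) (φ x))
    (z : Fin r → E.Ind M) :
    Theta E f hα hφ z = ∑ x, (Phi E (hα x) (hφ x) (z x) - z x) := by
  rw [Theta, LinearMap.sum_apply]
  rfl

theorem Theta_comm {L : Type} [AddCommGroup L] [Module (ZG N) L] {r : ℕ} (f : Fin r → G)
    {α : Fin r → N →* N} (hα : ∀ x, IsConj E (f x) (α x)) {φ : Fin r → M →+ M}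
    (hφ : ∀ x, IsSemi (α x) (φ x)) {ψ : Fin r → L →+ L} (hψ : ∀ x, IsSemi (α x) (ψ x))
    (p : L →ₗ[ZG N] M) (h : ∀ x l, p (ψ x l) = φ x (p l)) (z : Fin r → E.Ind L) :
    E.map p (Theta E f hα hψ z) = Theta E f hα hφ (fun x => E.map p (z x)) := by
  rw [Theta_apply, Theta_apply, map_sum]
  refine Finset.sum_congr rfl fun x _ => ?_
  rw [map_sub, Phi_comm E (hα x) (hφ x) (hψ x) p p (h x)]

end Phi

end Pool.Agent.NN
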