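import Mathlib
import Pool.Agent.helper50.NN.Semi

/-!
The heart of the argument: transfer of finite generation from `Γ` to `P`.
-/

set_option autoImplicit false

namespace Pool.Agent.NN

section

variable {P V : Type} [Group P] [AddCommGroup V] [Module (ZG P) V]

/-- The subgroup acting trivially. -/
def trivSub (P V : Type) [Group P] [AddCommGroup V] [Module (ZG P) V] : Subgroup P where
  carrier := {g | ∀ v : V, (o g : ZG P) • v = v}
  mul_mem' := by
    intro a b ha hb v
    rw [map_mul, mul_smul, hb, ha]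
  one_mem' := by
    intro v
    rw [map_one, one_smul]
  inv_mem' := by
    intro a ha v
    conv_lhs => rw [← ha v]
    rw [smul_smul, ← map_mul, inv_mul_cancel, map_one, one_smul]

theorem mem_trivSub (g : P) : g ∈ trivSub P V ↔ ∀ v : V, (o g : ZG P) • v = v := Iff.rfl

instance : (trivSub P V).Normal := by
  constructor
  intro n hn g
  rw [mem_trivSub] at hn ⊢
  intro v
  rw [map_mul, map_mul, mul_smul, mul_smul, hn, smul_smul, ← map_mul, mul_inv_cancel, map_one,
    one_smul]

theorem o_smul_eq_iff (g : P) (v w : V) : (o g : ZG P) • v = w ↔ v = (o g⁻¹ : ZG P) • w := by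
  constructor
  · rintro rfl
    rw [smul_smul, ← map_mul, inv_mul_cancel, map_one, one_smul]
  · rintro rfl
    rw [smul_smul, ← map_mul, mul_inv_cancel, map_one, one_smul]

end

section heart

variable {N P Γ Q : Type} [Group N] [Group P] [Group Γ] [Group Q]

theorem heart (ι : N →* P) (E₁ : Ext N Γ Q) (q : P →* Γ) (hq : Function.Surjective q)
    (hqι : ∀ n, q (ι n) = E₁.ι n) (D : RelData N) (f : Fin D.r → P)
    (hα₁ : ∀ x, IsConj E₁ (q (f x)) (D.α x))
    (gen : Submonoid.closure (Set.range ι ∪ Set.range (fun x => (f x)⁻¹)) = ⊤)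
    (ρ : Fin D.t → P) (hρ : ∀ i, wv f (D.w i) = ρ i * ι (D.nn i))
    (hK : q.ker ≤ Subgroup.normalClosure (Set.range ρ))
    {M : Type} [AddCommGroup M] [Module (ZG N) M] (hs : HS D M)
    {V : Type} [AddCommGroup V] [Module (ZG P) V] (β : M →+ V) (hβ : IsSemi ι β)
    (hspan : Submodule.span (ZG P) (Set.range β) = ⊤)
    (hf : ∀ x m, (o (f x) : ZG P) • β (hs.φ x m) = β m)
    (hthin : ∀ i m, β ((o (D.nn i) : ZG N) • opw hs.φ (D.w i) m) = β m)
    (Y : Set M) (hY : Submodule.span (ZG Γ) (E₁.of '' Y) ⊔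
      LinearMap.range (Theta E₁ (fun x => q (f x)) hα₁ hs.semi) = ⊤)
    (hβY : ∀ y ∈ Y, β y = 0) (v : V) : v = 0 := by
  have hf' : ∀ x m, (o (f x)⁻¹ : ZG P) • β m = β (hs.φ x m) := by
    intro x m
    rw [← hf x m, smul_smul, ← map_mul, inv_mul_cancel, map_one, one_smul]
  have h1 : ∀ (g : P) (m : M), ∃ m', (o g : ZG P) • β m = β m' := by
    intro g
    have hg : g ∈ Submonoid.closure (Set.range ι ∪ Set.range (fun x => (f x)⁻¹)) := by
      rw [gen]; trivial
    induction hg using Submonoid.closure_induction with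
    | mem x hx =>
      rcases hx with ⟨n, rfl⟩ | ⟨x, rfl⟩
      · intro m
        exact ⟨(o n : ZG N) • m, (hβ n m).symm⟩
      · intro m
        exact ⟨hs.φ x m, hf' x m⟩
    | one =>
      intro m
      exact ⟨m, by rw [map_one, one_smul]⟩
    | mul a b _ _ ha hb =>
      intro m
      obtain ⟨m', hm'⟩ := hb m
      obtain ⟨m'', hm''⟩ := ha m'
      exact ⟨m'', by rw [map_mul, mul_smul, hm', hm'']⟩
  have h2 : ∀ v : V, ∃ m, β m = v := by
    intro v
    have hv : v ∈ Submodule.span (ZG P) (Set.range β) := by rw [hspan]; trivial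
    induction hv using Submodule.span_induction with
    | mem x hx => exact hx
    | zero => exact ⟨0, map_zero β⟩
    | add x y _ _ hx hy =>
      obtain ⟨a, rfl⟩ := hx
      obtain ⟨b, rfl⟩ := hy
      exact ⟨a + b, map_add β a b⟩
    | smul a x _ hx =>
      induction a using MonoidAlgebra.induction_on with
      | of g =>
        obtain ⟨m, rfl⟩ := hx
        obtain ⟨m', hm'⟩ := h1 g m
        exact ⟨m', hm'.symm⟩
      | add c d hc hd =>
        obtain ⟨m, hm⟩ := hc
        obtain ⟨m', hm'⟩ := hd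
        exact ⟨m + m', by rw [map_add, hm, hm', add_smul]⟩
      | smul c d hd =>
        obtain ⟨m, hm⟩ := hd
        exact ⟨c • m, by rw [map_zsmul, hm, smul_assoc]⟩
  have h3 : ∀ (w : List (Fin D.r)) (m : M),
      β (opw hs.φ w m) = (o (wv f w)⁻¹ : ZG P) • β m := by
    intro w
    induction w with
    | nil =>
      intro m
      change β m = (o (1 : P)⁻¹ : ZG P) • β m
      rw [inv_one, map_one, one_smul]
    | cons x w ih =>
      intro m
      change β (opw hs.φ w (hs.φ x m)) = (o (f x * wv f w)⁻¹ : ZG P) • β m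
      rw [ih, ← hf', smul_smul, ← map_mul, mul_inv_rev]
  have h4 : ∀ i, ρ i ∈ trivSub P V := by
    intro i
    rw [← inv_mem_iff, mem_trivSub]
    intro v
    obtain ⟨m, rfl⟩ := h2 v
    have h5 := hthin i m
    rw [hβ, h3, smul_smul, ← map_mul, hρ] at h5
    conv_rhs => rw [← h5]
    congr 2
    group
  have h5 : q.ker ≤ trivSub P V := hK.trans (Subgroup.normalClosure_le_normal (by
    rintro _ ⟨i, rfl⟩
    exact h4 i))
  have h6 : ∀ g g' : P, q g = q g' → ∀ v : V, (o g : ZG P) • v = (o g' : ZG P) • v := by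
    intro g g' hgg v
    have h7 : g'⁻¹ * g ∈ q.ker := by
      rw [MonoidHom.mem_ker, map_mul, map_inv, hgg, inv_mul_cancel]
    have h8 := h5 h7
    rw [mem_trivSub] at h8
    conv_rhs => rw [← h8 v]
    rw [smul_smul, ← map_mul]
    congr 2
    group
  choose s hs' using hq
  let ρ' : Γ →* Module.End ℤ V :=
    { toFun := fun γ => (DistribSMul.toAddMonoidHom V (o (s γ) : ZG P)).toIntLinearMap
      map_one' := by
        apply LinearMap.ext
        intro v
        change (o (s 1) : ZG P) • v = v
        rw [h6 (s 1) 1 (by rw [hs', map_one]), map_one, one_smul]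
      map_mul' := by
        intro a b
        apply LinearMap.ext
        intro v
        change (o (s (a * b)) : ZG P) • v = (o (s a) : ZG P) • (o (s b) : ZG P) • v
        rw [smul_smul, ← map_mul]
        exact h6 _ _ (by rw [hs', map_mul, hs', hs']) v }
  letI : Module (ZG Γ) V := modOf ρ'
  have h7 : ∀ (g : P) (v : V), (o (q g) : ZG Γ) • v = (o g : ZG P) • v := by
    intro g v
    have h8 : (o (q g) : ZG Γ) • v = ρ' (q g) v := modOf_smul ρ' (q g) v
    rw [h8]
    exact h6 _ _ (hs' _) v
  have hβ₁ : IsSemi E₁.ι β := by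
    intro n m
    rw [← hqι, h7]
    exact hβ n m
  have h8 : ∀ x, E₁.lift β hβ₁ x = 0 := by
    intro x
    rw [← LinearMap.mem_ker]
    have : (⊤ : Submodule (ZG Γ) (E₁.Ind M)) ≤ LinearMap.ker (E₁.lift β hβ₁) := by
      rw [← hY, sup_le_iff, Submodule.span_le]
      constructor
      · rintro _ ⟨y, hy, rfl⟩
        change E₁.of y ∈ LinearMap.ker (E₁.lift β hβ₁)
        rw [LinearMap.mem_ker, E₁.lift_of]
        exact hβY y hy
      · rintro _ ⟨z, rfl⟩
        rw [LinearMap.mem_ker, Theta_apply, map_sum]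
        refine Finset.sum_eq_zero fun x _ => ?_
        have h9 : (E₁.lift β hβ₁).comp (Phi E₁ (hα₁ x) (hs.semi x)) = E₁.lift β hβ₁ := by
          apply E₁.lin_ext
          intro m
          rw [LinearMap.comp_apply, Phi_of, map_smul, E₁.lift_of, E₁.lift_of, h7]
          exact hf x m
        rw [map_sub, sub_eq_zero]
        exact LinearMap.congr_fun h9 (z x)
    exact this trivial
  obtain ⟨m, rfl⟩ := h2 v
  rw [← E₁.lift_of β hβ₁ m, h8]

end heart

end Pool.Agent.NN
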