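import Mathlib
import Pool.Agent.helper50.NN.Cone
import Pool.Agent.helper50.NN.Heart

/-!
The dimension shifting argument.
-/

set_option autoImplicit false

namespace Pool.Agent.NN

theorem isConj_map {N P H Γ Q : Type} [Group N] [Group P] [Group H] [Group Γ] [Group Q]
    (E : Ext N P H) (E₁ : Ext N Γ Q) (q : P →* Γ) (qι : ∀ n, q (E.ι n) = E₁.ι n) {g : P}
    {α : N →* N} (h : IsConj E g α) : IsConj E₁ (q g) α := by
  intro n
  rw [← qι, h n, map_mul, map_mul, map_inv, qι]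

/-- The set-up. -/
structure Pair (N P H Γ Q : Type) [Group N] [Group P] [Group H] [Group Γ] [Group Q] where
  /-- the first extension -/
  E : Ext N P H
  /-- the second extension -/
  E₁ : Ext N Γ Q
  /-- the map -/
  q : P →* Γ
  q_surj : Function.Surjective q
  qι : ∀ n, q (E.ι n) = E₁.ι n
  /-- the relation data -/
  D : RelData N
  /-- the letters -/
  f : Fin D.r → P
  hα : ∀ x, IsConj E (f x) (D.α x)
  gen : Submonoid.closure (Set.range E.ι ∪ Set.range (fun x => (f x)⁻¹)) = ⊤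
  /-- relators -/
  ρ : Fin D.t → P
  hρ : ∀ i, wv f (D.w i) = ρ i * E.ι (D.nn i)
  hK : q.ker ≤ Subgroup.normalClosure (Set.range ρ)

namespace Pair

variable {N P H Γ Q : Type} [Group N] [Group P] [Group H] [Group Γ] [Group Q]
  (S : Pair N P H Γ Q)

theorem hα₁ (x : Fin S.D.r) : IsConj S.E₁ (S.q (S.f x)) (S.D.α x) :=
  isConj_map S.E S.E₁ S.q S.qι (S.hα x)

/-- `Θ` over `P`. -/
noncomputable abbrev ΘP {M : Type} [AddCommGroup M] [Module (ZG N) M]
    {φ : Fin S.D.r → M →+ M} (hφ : ∀ x, IsSemi (S.D.α x) (φ x)) :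
    (Fin S.D.r → S.E.Ind M) →ₗ[ZG P] S.E.Ind M :=
  Theta S.E S.f S.hα hφ

/-- `Θ` over `Γ`. -/
noncomputable abbrev ΘΓ {M : Type} [AddCommGroup M] [Module (ZG N) M]
    {φ : Fin S.D.r → M →+ M} (hφ : ∀ x, IsSemi (S.D.α x) (φ x)) :
    (Fin S.D.r → S.E₁.Ind M) →ₗ[ZG Γ] S.E₁.Ind M :=
  Theta S.E₁ (fun x => S.q (S.f x)) S.hα₁ hφ

theorem heart2 {M : Type} [AddCommGroup M] [Module (ZG N) M] (hs : HS S.D M)
    (hfin : Module.Finite (ZG Γ) (S.E₁.Ind M ⧸ LinearMap.range (S.ΘΓ hs.semi))) :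
    Module.Finite (ZG P) (S.E.Ind M ⧸ LinearMap.range (S.ΘP hs.semi)) := by
  -- generators over `Γ`
  let C := LinearMap.range (S.ΘΓ hs.semi)
  have h1 : Submodule.span (ZG Γ) (Set.range fun m : M => C.mkQ (S.E₁.of m)) = ⊤ := by
    have h2 : Set.range (fun m : M => C.mkQ (S.E₁.of m)) =
        C.mkQ '' (Set.range (S.E₁.of : M → S.E₁.Ind M)) := by
      rw [← Set.range_comp]
      rfl
    rw [h2, ← Submodule.map_span, S.E₁.span_of, Submodule.map_top, Submodule.range_mkQ]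
  obtain ⟨s', hs', hsp⟩ := (Submodule.fg_span_iff_fg_span_finset_subset
    (Set.range fun m : M => C.mkQ (S.E₁.of m))).1 (by rw [h1]; exact hfin.fg_top)
  rw [h1] at hsp
  have h3 : ∀ c : s', ∃ m : M, C.mkQ (S.E₁.of m) = c := fun c => hs' c.2
  choose y hy using h3
  choose k a s has using hs.thin
  let Z : Set M := Set.range y ∪ ⋃ i, Set.range fun j : Fin (k i) => s i (Pi.single j 1)
  have hZ : Z.Finite := (Set.finite_range y).union (Set.finite_iUnion fun i => Set.finite_range _)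
  let B : Submodule (ZG P) (S.E.Ind M) := LinearMap.range (S.ΘP hs.semi)
  let T : Submodule (ZG P) (S.E.Ind M) := B ⊔ Submodule.span (ZG P) (S.E.of '' Z)
  let β : M →+ S.E.Ind M ⧸ T := T.mkQ.toAddMonoidHom.comp S.E.of
  have hβ0 : ∀ m, β m = T.mkQ (S.E.of m) := fun m => rfl
  have hβ : IsSemi S.E.ι β := by
    intro n m
    rw [hβ0, hβ0, S.E.of_semi, map_smul]
  have hβZ : ∀ z ∈ Z, β z = 0 := by
    intro z hz
    rw [hβ0, Submodule.mkQ_apply, Submodule.Quotient.mk_eq_zero]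
    exact Submodule.mem_sup_right (Submodule.subset_span ⟨z, hz, rfl⟩)
  have hβs : ∀ i x, β (s i x) = 0 := by
    intro i x
    have hx : x = ∑ j, x j • (Pi.single j (1 : ZG N) : Fin (k i) → ZG N) := by
      conv_lhs => rw [← Finset.univ_sum_single x]
      refine Finset.sum_congr rfl fun j _ => ?_
      rw [← Pi.single_smul, smul_eq_mul, mul_one]
    rw [hx, map_sum, map_sum]
    refine Finset.sum_eq_zero fun j _ => ?_
    rw [map_smul, hβ.smul, hβZ _ (Or.inr (Set.mem_iUnion.2 ⟨i, j, rfl⟩)), smul_zero]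
  have hV : ∀ v : S.E.Ind M ⧸ T, v = 0 := by
    refine heart S.E.ι S.E₁ S.q S.q_surj S.qι S.D S.f S.hα₁ S.gen S.ρ S.hρ S.hK hs β hβ ?_ ?_ ?_
      (Set.range y) ?_ ?_
    · have h2 : Set.range β = T.mkQ '' (Set.range (S.E.of : M → S.E.Ind M)) := by
        rw [← Set.range_comp]
        rfl
      rw [h2, ← Submodule.map_span, S.E.span_of, Submodule.map_top, Submodule.range_mkQ]
    · intro x m
      rw [hβ0, hβ0, ← map_smul, ← sub_eq_zero, ← map_sub, Submodule.mkQ_apply,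
        Submodule.Quotient.mk_eq_zero]
      refine Submodule.mem_sup_left ⟨Pi.single x (S.E.of m), ?_⟩
      rw [Theta_apply, Finset.sum_eq_single x]
      · rw [Pi.single_eq_same, Phi_of]
      · intro b _ hb
        rw [Pi.single_eq_of_ne hb, map_zero, sub_zero]
      · intro h
        exact absurd (Finset.mem_univ x) h
    · intro i m
      rw [has, map_add, hβs, add_zero]
    · rw [sup_comm, ← Submodule.map_mkQ_eq_top, Submodule.map_span, eq_top_iff, hsp,
        Submodule.span_le]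
      intro c hc
      refine Submodule.subset_span ⟨S.E₁.of (y ⟨c, hc⟩), ⟨y ⟨c, hc⟩, ⟨_, rfl⟩, rfl⟩, ?_⟩
      exact hy ⟨c, hc⟩
    · rintro _ ⟨c, rfl⟩
      exact hβZ _ (Or.inl ⟨c, rfl⟩)
  have hT : T = ⊤ := by
    rw [eq_top_iff]
    intro x _
    have := hV (T.mkQ x)
    rwa [Submodule.mkQ_apply, Submodule.Quotient.mk_eq_zero] at this
  have h5 := (Submodule.map_mkQ_eq_top B (Submodule.span (ZG P) (S.E.of '' Z))).2 hT
  rw [Submodule.map_span] at h5
  refine ⟨?_⟩
  rw [← h5]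
  exact Submodule.fg_span ((hZ.image _).image _)

section ses

variable {G K : Type} [Group G] [Group K] (E : Ext N G K) {r : ℕ} (f : Fin r → G)
  {α : Fin r → N →* N} (hα : ∀ x, IsConj E (f x) (α x))
  {M L M' : Type} [AddCommGroup M] [Module (ZG N) M] [AddCommGroup L] [Module (ZG N) L]
  [AddCommGroup M'] [Module (ZG N) M']
  {φ' : Fin r → M' →+ M'} {ψ : Fin r → L →+ L} {φ : Fin r → M →+ M}
  (h' : ∀ x, IsSemi (α x) (φ' x)) (hψ : ∀ x, IsSemi (α x) (ψ x)) (hφ : ∀ x, IsSemi (α x) (φ x))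
  (i : M' →ₗ[ZG N] L) (p : L →ₗ[ZG N] M)

/-- componentwise map -/
noncomputable def cw (r : ℕ) (p : L →ₗ[ZG N] M) :
    (Fin r → E.Ind L) →ₗ[ZG G] (Fin r → E.Ind M) :=
  LinearMap.pi fun x => E.map p ∘ₗ LinearMap.proj x

theorem cw_apply (p : L →ₗ[ZG N] M) (z : Fin r → E.Ind L) (x : Fin r) :
    cw E r p z x = E.map p (z x) := rfl

theorem ses (hi : Function.Injective i) (hp : Function.Surjective p)
    (hip : ∀ x, p x = 0 ↔ ∃ y, i y = x) (c1 : ∀ x l, i (φ' x l) = ψ x (i l))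
    (c2 : ∀ x l, p (ψ x l) = φ x (p l)) :
    SES (E.map i) (E.map p) (cw E r i) (cw E r p) (Theta E f hα h') (Theta E f hα hψ)
      (Theta E f hα hφ) where
  i_inj := E.map_inj i hi
  p_surj := E.map_surj p hp
  ip := E.map_exact i p hip
  j_inj := by
    intro x y hxy
    funext j
    apply E.map_inj i hi
    exact congr_fun hxy j
  q_surj := by
    intro y
    choose z hz using fun j => E.map_surj p hp (y j)
    exact ⟨z, funext hz⟩
  jq := by
    intro x
    constructor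
    · intro hx
      choose z hz using fun j => (E.map_exact i p hip (x j)).1 (congr_fun hx j)
      exact ⟨z, funext hz⟩
    · rintro ⟨y, rfl⟩
      funext j
      exact (E.map_exact i p hip _).2 ⟨y j, rfl⟩
  comm1 := fun z => Theta_comm E f hα hψ h' i c1 z
  comm2 := fun z => Theta_comm E f hα hφ hψ p c2 z

end ses

theorem claim : ∀ (m : ℕ) (M : Type) [AddCommGroup M] [Module (ZG N) M] (hs : HS S.D M),
    FP (ZG N) m M → ∀ (k : ℕ) (p : (Fin k → ZG N) →ₗ[ZG N] M), Function.Surjective p →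
    FP (ZG Γ) m (UU (S.E₁.map p) (S.ΘΓ hs.semi)) → FP (ZG P) m (UU (S.E.map p) (S.ΘP hs.semi))
  | 0, M, _, _, hs, hM, k, p, hp, hU => by
    obtain ⟨ψ, h1, h2⟩ := exists_lifts p hs hp
    have hip : ∀ x, p x = 0 ↔ ∃ y, (LinearMap.ker p).subtype y = x := fun x =>
      ⟨fun hx => ⟨⟨x, hx⟩, rfl⟩, by rintro ⟨y, rfl⟩; exact y.2⟩
    have sΓ := ses S.E₁ (fun x => S.q (S.f x)) S.hα₁ (hs.ker p hp ψ h1 h2).semi h1 hs.semi
      (LinearMap.ker p).subtype p Subtype.val_injective hp hip (fun _ _ => rfl) h2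
    have sP := ses S.E S.f S.hα (hs.ker p hp ψ h1 h2).semi h1 hs.semi
      (LinearMap.ker p).subtype p Subtype.val_injective hp hip (fun _ _ => rfl) h2
    have h3 := coker_finite sΓ hU
    have h4 := S.heart2 (hs.ker p hp ψ h1 h2) h3
    exact FP_U_zero sP (FP.pi _ (S.E.FP_free 0 k)) h4
  | m + 1, M, _, _, hs, hM, k, p, hp, hU => by
    obtain ⟨ψ, h1, h2⟩ := exists_lifts p hs hp
    have hip : ∀ x, p x = 0 ↔ ∃ y, (LinearMap.ker p).subtype y = x := fun x =>
      ⟨fun hx => ⟨⟨x, hx⟩, rfl⟩, by rintro ⟨y, rfl⟩; exact y.2⟩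
    have sΓ := ses S.E₁ (fun x => S.q (S.f x)) S.hα₁ (hs.ker p hp ψ h1 h2).semi h1 hs.semi
      (LinearMap.ker p).subtype p Subtype.val_injective hp hip (fun _ _ => rfl) h2
    have sP := ses S.E S.f S.hα (hs.ker p hp ψ h1 h2).semi h1 hs.semi
      (LinearMap.ker p).subtype p Subtype.val_injective hp hip (fun _ _ => rfl) h2
    have hM' : FP (ZG N) m (LinearMap.ker p) := FP.ker p hp (FP.free m k) hM
    have hfin := hM'.finite
    obtain ⟨k', p', hp'⟩ := Module.Finite.exists_fin' (ZG N) (LinearMap.ker p)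
    have h3 := FP_U_of_succ (S.E₁.map p') (S.E₁.map_surj p' hp') sΓ
      (fun m => S.E₁.FP_free m k') (fun m => FP.pi _ (S.E₁.FP_free m k)) hU
    have h4 := claim m (LinearMap.ker p) (hs.ker p hp ψ h1 h2) hM' k' p' hp' h3
    exact FP_U_succ (S.E.map p') (S.E.map_surj p' hp') sP
      (fun m => S.E.FP_free m k') (fun m => FP.pi _ (S.E.FP_free m k)) h4

end Pair

end Pool.Agent.NN
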