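import Mathlib
import Pool.Agent.helper50.NN.Claim

/-!
The top level of the argument: the trivial module.
-/

set_option autoImplicit false

namespace Pool.Agent.NN

section Res

variable {G H : Type} [Group G] [Group H]

/-- Restriction of modules along a group homomorphism. -/
def Res (_ : G →* H) (X : Type) : Type := X

variable (π : G →* H)

instance (X : Type) [AddCommGroup X] : AddCommGroup (Res π X) :=
  inferInstanceAs (AddCommGroup X)

noncomputable instance (X : Type) [AddCommGroup X] [Module (ZG H) X] : Module (ZG G) (Res π X) :=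
  Module.compHom X (MonoidAlgebra.mapDomainRingHom ℤ π)

variable {X Y : Type} [AddCommGroup X] [Module (ZG H) X] [AddCommGroup Y] [Module (ZG H) Y]

/-- identity map -/
def toRes : X ≃+ Res π X := AddEquiv.refl X

theorem toRes_smul (a : ZG G) (x : X) :
    a • toRes π x = toRes π ((MonoidAlgebra.mapDomainRingHom ℤ π a) • x) := rfl

theorem toRes_o (g : G) (x : X) :
    (o g : ZG G) • toRes π x = toRes π ((o (π g) : ZG H) • x) := by
  rw [toRes_smul]
  congr 2
  simp

/-- restriction of linear maps -/
noncomputable def resMap (f : X →ₗ[ZG H] Y) : Res π X →ₗ[ZG G] Res π Y where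
  toFun := f
  map_add' := f.map_add
  map_smul' _ _ := f.map_smul _ _

theorem resMap_apply (f : X →ₗ[ZG H] Y) (x : X) :
    resMap π f (toRes π x) = toRes π (f x) := rfl

/-- restriction of equivalences -/
noncomputable def resEquiv (f : X ≃ₗ[ZG H] Y) : Res π X ≃ₗ[ZG G] Res π Y :=
  LinearEquiv.ofBijective (resMap π f.toLinearMap) f.bijective

/-- kernel of a restricted map -/
noncomputable def resKer (f : X →ₗ[ZG H] Y) :
    Res π (LinearMap.ker f) ≃ₗ[ZG G] LinearMap.ker (resMap π f) :=
  LinearEquiv.ofBijective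
    (LinearMap.codRestrict (LinearMap.ker (resMap π f))
      (resMap π (LinearMap.ker f).subtype) (fun x => (show LinearMap.ker f from x).2)) (by
    constructor
    · intro x y hxy
      exact Subtype.ext (congr_arg Subtype.val hxy)
    · rintro ⟨x, hx⟩
      exact ⟨(⟨x, hx⟩ : LinearMap.ker f), rfl⟩)

/-- restriction of a power -/
noncomputable def resPi (k : ℕ) : Res π (Fin k → X) ≃ₗ[ZG G] (Fin k → Res π X) where
  toFun x := x
  invFun x := x
  map_add' _ _ := rfl
  map_smul' _ _ := rfl
  left_inv _ := rfl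
  right_inv _ := rfl

end Res

section triv

variable {N G H : Type} [Group N] [Group G] [Group H] (E : Ext N G H)

/-- `1 ∈ ℤH` as an additive map. -/
noncomputable def oneβ : Triv N →+ Res E.π (ZG H) where
  toFun m := toRes E.π ((show ℤ from m) • (1 : ZG H))
  map_zero' := by
    change toRes E.π ((0 : ℤ) • (1 : ZG H)) = 0
    rw [zero_smul, map_zero]
  map_add' a b := by
    change toRes E.π (((show ℤ from a) + (show ℤ from b)) • (1 : ZG H)) = _
    rw [add_smul, map_add]

theorem oneβ_semi : IsSemi E.ι (oneβ E) := by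
  intro n v
  rw [triv_o]
  change _ = (o (E.ι n) : ZG G) • toRes E.π ((show ℤ from v) • (1 : ZG H))
  rw [toRes_o, E.π_ι, map_one, one_smul]
  rfl

/-- `Ind ℤ → ℤH` -/
noncomputable def LL : E.Ind (Triv N) →ₗ[ZG G] Res E.π (ZG H) := E.lift (oneβ E) (oneβ_semi E)

theorem LL_sg (h : H) (m : Triv N) :
    LL E (E.sg h m) = toRes E.π (MonoidAlgebra.single h (show ℤ from m)) := by
  rw [LL, E.lift_sg]
  change (o (E.σ h) : ZG G) • toRes E.π ((show ℤ from m) • (1 : ZG H)) = _
  rw [toRes_o, E.π_σ]
  congr 1
  change (MonoidAlgebra.of ℤ H h : ZG H) * ((show ℤ from m) • (1 : ZG H)) = _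
  rw [mul_smul_comm, mul_one, MonoidAlgebra.of_apply, MonoidAlgebra.smul_single, smul_eq_mul,
    mul_one]

/-- the underlying finitely supported function -/
def toF (x : E.Ind (Triv N)) : H →₀ ℤ := x

theorem LL_apply (x : E.Ind (Triv N)) :
    LL E x = toRes E.π (MonoidAlgebra.ofCoeff (toF E x)) := by
  induction x using E.ind_induction with
  | h0 =>
    rw [map_zero]
    rfl
  | hadd x y hx hy =>
    rw [map_add, hx, hy]
    rfl
  | hs h m =>
    rw [LL_sg]
    rfl

/-- `Ind ℤ ≃ ℤH` -/
noncomputable def indTriv : E.Ind (Triv N) ≃ₗ[ZG G] Res E.π (ZG H) :=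
  LinearEquiv.ofBijective (LL E) (by
    constructor
    · intro x y hxy
      rw [LL_apply, LL_apply] at hxy
      have h1 := MonoidAlgebra.ofCoeff_injective ((toRes E.π).injective hxy)
      exact h1
    · intro y
      refine ⟨(show E.Ind (Triv N) from ((toRes E.π).symm y).coeff), ?_⟩
      rw [LL_apply]
      rfl)

theorem FP_ResZH {m : ℕ} (hN : FP (ZG N) m (Triv N)) : FP (ZG G) m (Res E.π (ZG H)) :=
  (E.FP_Ind m _ hN).equiv (indTriv E)

theorem FP_ResFree {m : ℕ} (hN : FP (ZG N) m (Triv N)) (k : ℕ) :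
    FP (ZG G) m (Res E.π (Fin k → ZG H)) :=
  (FP.pi k (FP_ResZH E hN)).equiv (resPi E.π k).symm

theorem FP_Res : ∀ (m : ℕ), FP (ZG N) m (Triv N) → ∀ (X : Type) [AddCommGroup X]
    [Module (ZG H) X], FP (ZG H) m X → FP (ZG G) m (Res E.π X)
  | 0, hN, X, _, _, hX => by
    have h0 : Module.Finite (ZG H) X := hX
    obtain ⟨k, f, hf⟩ := Module.Finite.exists_fin' (ZG H) X
    exact FP.quot_zero (resMap E.π f) hf (FP_ResFree E hN k)
  | m + 1, hN, X, _, _, hX => by
    obtain ⟨k, f, hf, hk⟩ := hX
    have ih := FP_Res m hN.of_succ _ hk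
    exact FP.quot (resMap E.π f) hf (ih.equiv (resKer E.π f)) (FP_ResFree E hN k)

section theta

variable {r : ℕ} (f : Fin r → G) {α : Fin r → N →* N} (hα : ∀ x, IsConj E (f x) (α x))
  {φ : Fin r → Triv N →+ Triv N} (hφ : ∀ x, IsSemi (α x) (φ x)) (hid : ∀ x m, φ x m = m)

/-- augmentation of the induced module -/
noncomputable def augI : E.Ind (Triv N) →ₗ[ZG G] Triv G :=
  E.lift (V := Triv G) (AddMonoidHom.id ℤ) (by
    intro n v
    change (o n : ZG N) • v = (o (E.ι n) : ZG G) • (show Triv G from v)
    rw [triv_o, triv_o])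

theorem augI_sg (h : H) (m : Triv N) : augI E (E.sg h m) = (show Triv G from m) := by
  rw [augI, E.lift_sg, triv_o]
  rfl

theorem augI_surj : Function.Surjective (augI E) := fun m =>
  ⟨E.sg 1 (show Triv N from m), augI_sg E 1 _⟩

include hid in
theorem range_Theta (gen : Subgroup.closure (Set.range E.ι ∪ Set.range f) = ⊤) :
    LinearMap.range (Theta E f hα hφ) = LinearMap.ker (augI E) := by
  apply le_antisymm
  · rintro _ ⟨z, rfl⟩
    rw [LinearMap.mem_ker, Theta_apply, map_sum]
    refine Finset.sum_eq_zero fun x _ => ?_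
    have h9 : (augI E).comp (Phi E (hα x) (hφ x)) = augI E := by
      apply E.lin_ext
      intro m
      rw [LinearMap.comp_apply, Phi_of, map_smul, hid, triv_o]
    rw [map_sub, sub_eq_zero]
    exact LinearMap.congr_fun h9 (z x)
  · intro x hx
    rw [LinearMap.mem_ker] at hx
    let B := LinearMap.range (Theta E f hα hφ)
    have h1 : ∀ (g : G) (m : Triv N), (o g : ZG G) • B.mkQ (E.of m) = B.mkQ (E.of m) := by
      intro g m
      have hg : g ∈ Subgroup.closure (Set.range E.ι ∪ Set.range f) := by rw [gen]; trivial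
      induction hg using Subgroup.closure_induction with
      | mem x hx =>
        rcases hx with ⟨n, rfl⟩ | ⟨x, rfl⟩
        · rw [← map_smul, ← E.of_semi, triv_o]
        · rw [← map_smul, ← sub_eq_zero, ← map_sub, Submodule.mkQ_apply,
            Submodule.Quotient.mk_eq_zero]
          refine ⟨Pi.single x (E.of m), ?_⟩
          rw [Theta_apply, Finset.sum_eq_single x]
          · rw [Pi.single_eq_same, Phi_of, hid]
          · intro b _ hb
            rw [Pi.single_eq_of_ne hb, map_zero, sub_zero]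
          · intro h
            exact absurd (Finset.mem_univ x) h
      | one => rw [map_one, one_smul]
      | mul a b _ _ ha hb => rw [map_mul, mul_smul, hb, ha]
      | inv a _ ha =>
        conv_lhs => rw [← ha]
        rw [smul_smul, ← map_mul, inv_mul_cancel, map_one, one_smul]
    have h2 : ∀ y : E.Ind (Triv N), B.mkQ y = B.mkQ (E.of (show Triv N from augI E y)) := by
      intro y
      induction y using E.ind_induction with
      | h0 =>
        rw [map_zero, map_zero]
        have : E.of (show Triv N from (0 : Triv G)) = (0 : E.Ind (Triv N)) := map_zero E.of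
        rw [this, map_zero]
      | hadd x y hx hy =>
        rw [map_add, hx, hy, map_add]
        have : E.of (show Triv N from (augI E x + augI E y : Triv G)) =
          E.of (show Triv N from augI E x) + E.of (show Triv N from augI E y) := map_add E.of _ _
        rw [this, map_add]
      | hs h m => rw [augI_sg, ← E.σ_of, map_smul, h1]
    have h3 := h2 x
    rw [hx] at h3
    have : E.of (show Triv N from (0 : Triv G)) = (0 : E.Ind (Triv N)) := map_zero E.of
    rw [this, map_zero, Submodule.mkQ_apply, Submodule.Quotient.mk_eq_zero] at h3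
    exact h3

include hid in
/-- the cokernel of `Θ` is the trivial module -/
theorem coker_equiv (gen : Subgroup.closure (Set.range E.ι ∪ Set.range f) = ⊤) :
    Nonempty ((E.Ind (Triv N) ⧸ LinearMap.range (Theta E f hα hφ)) ≃ₗ[ZG G] Triv G) := by
  rw [range_Theta E f hα hφ hid gen]
  exact ⟨(augI E).quotKerEquivOfSurjective (augI_surj E)⟩

/-- augmentation as a linear map -/
noncomputable def augL (H : Type) [Group H] : ZG H →ₗ[ZG H] Triv H where
  toFun x := (show Triv H from aug H x)
  map_add' x y := map_add (aug H) x y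
  map_smul' a x := map_mul (aug H) a x

theorem augL_surj (H : Type) [Group H] : Function.Surjective (augL H) := by
  intro m
  refine ⟨(show ℤ from m) • (1 : ZG H), ?_⟩
  change aug H ((show ℤ from m) • (1 : ZG H)) = m
  rw [map_zsmul, map_one]
  exact mul_one (show ℤ from m)

theorem augI_eq (x : E.Ind (Triv N)) :
    augI E x = (show Triv G from aug H ((toRes E.π).symm (LL E x))) := by
  induction x using E.ind_induction with
  | h0 =>
    rw [map_zero, map_zero, map_zero, map_zero]
    rfl
  | hadd x y hx hy =>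
    rw [map_add, hx, hy, map_add, map_add, map_add]
    rfl
  | hs h m =>
    rw [augI_sg, LL_sg]
    change _ = aug H (MonoidAlgebra.single h (show ℤ from m))
    have : MonoidAlgebra.single h (show ℤ from m) = (show ℤ from m) • (o h : ZG H) := by
      rw [MonoidAlgebra.of_apply, MonoidAlgebra.smul_single, smul_eq_mul, mul_one]
    rw [this, map_zsmul, aug_o]
    exact (mul_one (show ℤ from m)).symm

/-- The map `Θ` over `ℤH`. -/
noncomputable def ThetaH {r : ℕ} (h : Fin r → H) : (Fin r → ZG H) →ₗ[ZG H] ZG H :=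
  ∑ x, (LinearMap.toSpanSingleton (ZG H) (ZG H) ((o (h x) : ZG H) - 1)) ∘ₗ LinearMap.proj x

theorem ThetaH_apply {r : ℕ} (h : Fin r → H) (z : Fin r → ZG H) :
    ThetaH h z = ∑ x, z x * ((o (h x) : ZG H) - 1) := by
  rw [ThetaH, LinearMap.sum_apply]
  rfl

include hid in
theorem LL_Theta (z : Fin r → E.Ind (Triv N)) :
    LL E (Theta E f hα hφ z) =
      toRes E.π (ThetaH (fun x => E.π (f x)) (fun x => (toRes E.π).symm (LL E (z x)))) := by
  rw [Theta_apply, ThetaH_apply, map_sum, map_sum]
  refine Finset.sum_congr rfl fun x _ => ?_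
  rw [map_sub]
  have key : ∀ y : E.Ind (Triv N), LL E (Phi E (hα x) (hφ x) y) =
      toRes E.π (((toRes E.π).symm (LL E y)) * (o (E.π (f x)) : ZG H)) := by
    intro y
    induction y using E.ind_induction with
    | h0 => rw [map_zero, map_zero, map_zero, zero_mul, map_zero]
    | hadd a b ha hb => rw [map_add, map_add, ha, hb, map_add, map_add, add_mul, map_add]
    | hs h m =>
      have h1 : E.of m = E.sg 1 m := rfl
      rw [← E.σ_of, map_smul, Phi_of, hid, map_smul, map_smul, map_smul, h1, LL_sg,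
        toRes_o, toRes_o, toRes_o, E.π_σ, AddEquiv.symm_apply_apply]
      congr 1
      change (MonoidAlgebra.of ℤ H h : ZG H) * ((MonoidAlgebra.of ℤ H (E.π (f x)) : ZG H) *
        MonoidAlgebra.single 1 (show ℤ from m)) =
        ((MonoidAlgebra.of ℤ H h : ZG H) * MonoidAlgebra.single 1 (show ℤ from m)) *
          (MonoidAlgebra.of ℤ H (E.π (f x)) : ZG H)
      rw [MonoidAlgebra.of_apply, MonoidAlgebra.of_apply, MonoidAlgebra.single_mul_single,
        MonoidAlgebra.single_mul_single, MonoidAlgebra.single_mul_single,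
        MonoidAlgebra.single_mul_single]
      simp
  rw [key, mul_sub, mul_one, map_sub]
  rfl

include hα hφ hid in
theorem range_ThetaH (gen : Subgroup.closure (Set.range E.ι ∪ Set.range f) = ⊤) :
    LinearMap.range (ThetaH (fun x => E.π (f x))) = LinearMap.ker (augL H) := by
  apply le_antisymm
  · rintro _ ⟨z, rfl⟩
    rw [LinearMap.mem_ker]
    change aug H (ThetaH (fun x => E.π (f x)) z) = 0
    rw [ThetaH_apply, map_sum]
    refine Finset.sum_eq_zero fun x _ => ?_
    rw [map_mul, map_sub, aug_o, map_one, sub_self, mul_zero]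
  · intro x hx
    obtain ⟨y, hy⟩ := (indTriv E).surjective (toRes E.π x)
    have hy' : LL E y = toRes E.π x := hy
    have h1 : y ∈ LinearMap.ker (augI E) := by
      rw [LinearMap.mem_ker, augI_eq, hy']
      exact hx
    rw [← range_Theta E f hα hφ hid gen] at h1
    obtain ⟨z, rfl⟩ := h1
    rw [LL_Theta E f hα hφ hid] at hy'
    exact ⟨_, (toRes E.π).injective hy'⟩

/-- comparison of powers -/
noncomputable def powE (r : ℕ) : (Fin r → E.Ind (Triv N)) ≃ₗ[ZG G] Res E.π (Fin r → ZG H) :=
  (LinearEquiv.piCongrRight fun _ => indTriv E).trans (resPi E.π r).symm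

theorem powE_apply (r : ℕ) (z : Fin r → E.Ind (Triv N)) :
    powE E r z = toRes E.π (fun x => (toRes E.π).symm (LL E (z x))) := rfl

include hid in
theorem FP_ker_Theta (gen : Subgroup.closure (Set.range E.ι ∪ Set.range f) = ⊤) {m : ℕ}
    (hN : FP (ZG N) m (Triv N)) (hH : FP (ZG H) (m + 2) (Triv H)) :
    FP (ZG G) m (LinearMap.ker (Theta E f hα hφ)) := by
  have h1 : FP (ZG H) (m + 1) (LinearMap.ker (augL H)) := by
    have h2 : ∀ m, FP (ZG H) m (ZG H) := fun m =>
      (FP.free m 1).equiv (LinearEquiv.funUnique (Fin 1) (ZG H) (ZG H))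
    exact FP.ker (augL H) (augL_surj H) (h2 _) hH
  have h3 : FP (ZG H) m (LinearMap.ker (ThetaH (fun x => E.π (f x)))) := by
    let T := ThetaH (fun x => E.π (f x))
    have hT : ∀ z, T z ∈ LinearMap.ker (augL H) := by
      intro z
      rw [← range_ThetaH E f hα hφ hid gen]
      exact ⟨z, rfl⟩
    let T' := LinearMap.codRestrict (LinearMap.ker (augL H)) T hT
    have hT' : Function.Surjective T' := by
      rintro ⟨x, hx⟩
      have hx' := hx
      rw [← range_ThetaH E f hα hφ hid gen] at hx'
      obtain ⟨z, hz⟩ := hx'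
      exact ⟨z, Subtype.ext hz⟩
    have h4 : FP (ZG H) m (LinearMap.ker T') := FP.ker T' hT' (FP.free _ _) h1
    exact h4.congr_sub (LinearMap.ker_codRestrict _ _ _)
  have h5 := (FP_Res E m hN _ h3).equiv (resKer E.π _)
  have hmem : ∀ z : Fin r → E.Ind (Triv N), z ∈ LinearMap.ker (Theta E f hα hφ) ↔
      powE E r z ∈ LinearMap.ker (resMap E.π (ThetaH (fun x => E.π (f x)))) := by
    intro z
    rw [LinearMap.mem_ker, LinearMap.mem_ker, powE_apply, resMap_apply,
      ← LL_Theta E f hα hφ hid]
    exact (map_eq_zero_iff _ (indTriv E).injective).symm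
  let e : LinearMap.ker (Theta E f hα hφ) ≃ₗ[ZG G]
      LinearMap.ker (resMap E.π (ThetaH (fun x => E.π (f x)))) :=
    LinearEquiv.ofBijective
      (LinearMap.codRestrict (LinearMap.ker (resMap E.π (ThetaH (fun x => E.π (f x)))))
        ((powE E r).toLinearMap ∘ₗ (LinearMap.ker (Theta E f hα hφ)).subtype)
        (fun z => (hmem z.1).1 z.2)) (by
      constructor
      · intro a b hab
        exact Subtype.ext ((powE E r).injective (congr_arg Subtype.val hab))
      · rintro ⟨y, hy⟩
        obtain ⟨z, rfl⟩ := (powE E r).surjective y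
        exact ⟨⟨z, (hmem z).2 hy⟩, rfl⟩)
  exact h5.equiv e.symm

end theta

end triv

/-- The homological form of the theorem. -/
theorem Pair.main {N P H Γ Q : Type} [Group N] [Group P] [Group H] [Group Γ] [Group Q]
    (S : Pair N P H Γ Q) (m : ℕ) (hN : FP (ZG N) (m + 1) (Triv N))
    (hΓ : FP (ZG Γ) (m + 2) (Triv Γ)) (hH : FP (ZG H) (m + 2) (Triv H))
    (hQ : FP (ZG Q) (m + 3) (Triv Q)) : FP (ZG P) (m + 2) (Triv P) := by
  have genP : Subgroup.closure (Set.range S.E.ι ∪ Set.range S.f) = ⊤ := by
    rw [eq_top_iff]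
    intro g _
    have hg : g ∈ Submonoid.closure (Set.range S.E.ι ∪ Set.range (fun x => (S.f x)⁻¹)) := by
      rw [S.gen]; trivial
    induction hg using Submonoid.closure_induction with
    | mem x hx =>
      rcases hx with ⟨n, rfl⟩ | ⟨x, rfl⟩
      · exact Subgroup.subset_closure (Or.inl ⟨n, rfl⟩)
      · exact inv_mem (Subgroup.subset_closure (Or.inr ⟨x, rfl⟩))
    | one => exact one_mem _
    | mul a b _ _ ha hb => exact mul_mem (ha trivial) (hb trivial)
  have genΓ : Subgroup.closure (Set.range S.E₁.ι ∪ Set.range (fun x => S.q (S.f x))) = ⊤ := by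
    have h1 : Set.range S.E₁.ι ∪ Set.range (fun x => S.q (S.f x)) =
        S.q '' (Set.range S.E.ι ∪ Set.range S.f) := by
      rw [Set.image_union, ← Set.range_comp, ← Set.range_comp]
      congr 1
      ext x
      constructor
      · rintro ⟨n, rfl⟩
        exact ⟨n, S.qι n⟩
      · rintro ⟨n, rfl⟩
        exact ⟨n, (S.qι n).symm⟩
    rw [h1, ← MonoidHom.map_closure, genP, ← MonoidHom.range_eq_map]
    exact MonoidHom.range_eq_top.2 S.q_surj
  let hs := HS.triv S.D
  have hid : ∀ x m, hs.φ x m = m := fun x m => rfl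
  have hfin := hN.finite
  obtain ⟨k, p, hp⟩ := Module.Finite.exists_fin' (ZG N) (Triv N)
  obtain ⟨eΓ⟩ := coker_equiv S.E₁ (fun x => S.q (S.f x)) S.hα₁ hs.semi hid genΓ
  obtain ⟨eP⟩ := coker_equiv S.E S.f S.hα hs.semi hid genP
  have hUΓ : FP (ZG Γ) (m + 1) (UU (S.E₁.map p) (S.ΘΓ hs.semi)) := by
    refine FP_U_of_coker (S.E₁.map p) (S.E₁.map_surj p hp) (S.ΘΓ hs.semi)
      (fun m => S.E₁.FP_free m k) (hΓ.equiv eΓ.symm) ?_
    exact FP_ker_Theta S.E₁ (fun x => S.q (S.f x)) S.hα₁ hs.semi hid genΓ hN hQ
  have hUP := S.claim (m + 1) (Triv N) hs hN k p hp hUΓ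
  have := FP_coker_of_U (S.E.map p) (S.E.map_surj p hp) (S.ΘP hs.semi)
    (fun m => S.E.FP_free m k) hUP
    (FP_ker_Theta S.E S.f S.hα hs.semi hid genP hN.of_succ hH)
  exact this.equiv eP

end Pool.Agent.NN
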