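import Mathlib
import Pool.Agent.helper50.NN.Top
import Pool.Agent.helper50.NN.FinPres

/-!
The fibre product.
-/

set_option autoImplicit false

namespace Pool.Agent.NN

section pair

variable {N P H Γ Q : Type} [Group N] [Group P] [Group H] [Group Γ] [Group Q]

theorem Ext.conj_exists (E : Ext N P H) (g : P) (n : N) : ∃ n', E.ι n' = g⁻¹ * E.ι n * g := by
  rw [← E.exact, map_mul, map_mul, E.π_ι, mul_one, map_inv, inv_mul_cancel]

/-- conjugation on the kernel -/
noncomputable def Ext.conj0 (E : Ext N P H) (g : P) (n : N) : N :=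
  Classical.choose (E.conj_exists g n)

theorem Ext.conj0_spec (E : Ext N P H) (g : P) (n : N) :
    E.ι (E.conj0 g n) = g⁻¹ * E.ι n * g := Classical.choose_spec (E.conj_exists g n)

/-- conjugation on the kernel -/
noncomputable def Ext.conj (E : Ext N P H) (g : P) : N →* N :=
  MonoidHom.mk' (E.conj0 g) (by
    intro a b
    apply E.ι_inj
    rw [E.conj0_spec, map_mul, map_mul, E.conj0_spec, E.conj0_spec]
    group)

theorem Ext.conj_spec (E : Ext N P H) (g : P) : IsConj E g (E.conj g) := fun n =>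
  E.conj0_spec g n

theorem αw_spec (E : Ext N P H) {r : ℕ} {f : Fin r → P} {α : Fin r → N →* N}
    (h : ∀ x, IsConj E (f x) (α x)) : ∀ w, IsConj E (wv f w) (αw α w)
  | [] => by
    intro n
    change E.ι n = (1 : P)⁻¹ * E.ι n * 1
    group
  | x :: w => by
    intro n
    change E.ι (αw α w (α x n)) = (f x * wv f w)⁻¹ * E.ι n * (f x * wv f w)
    rw [αw_spec E h w, h x]
    group

theorem exists_word {r : ℕ} (f : Fin r → P) (hf : Submonoid.closure (Set.range f) = ⊤) (g : P) :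
    ∃ w, wv f w = g := by
  have hg : g ∈ Submonoid.closure (Set.range f) := by rw [hf]; trivial
  have happ : ∀ w w' : List (Fin r), wv f (w ++ w') = wv f w * wv f w' := by
    intro w w'
    induction w with
    | nil => exact (one_mul _).symm
    | cons x w ih =>
      change f x * wv f (w ++ w') = f x * wv f w * wv f w'
      rw [ih, mul_assoc]
  induction hg using Submonoid.closure_induction with
  | mem x hx =>
    obtain ⟨x, rfl⟩ := hx
    exact ⟨[x], mul_one _⟩
  | one => exact ⟨[], rfl⟩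
  | mul a b _ _ ha hb =>
    obtain ⟨w, rfl⟩ := ha
    obtain ⟨w', rfl⟩ := hb
    exact ⟨w ++ w', happ w w'⟩

theorem exists_pair (E : Ext N P H) (E₁ : Ext N Γ Q) (q : P →* Γ)
    (q_surj : Function.Surjective q) (qι : ∀ n, q (E.ι n) = E₁.ι n) [hP : Group.FG P]
    [hΓ : Group.IsFinitelyPresented Γ]
    (hcomm : ∀ ρ ∈ q.ker, ∀ n, E.ι n * ρ = ρ * E.ι n) :
    Nonempty (Pair N P H Γ Q) := by
  obtain ⟨T, hT, hTfin⟩ := Monoid.fg_iff.1 ((Group.fg_iff_monoid_fg (G := P)).1 hP)
  have hTf : Finite T := hTfin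
  obtain ⟨r, ⟨e⟩⟩ := Finite.exists_equiv_fin T
  let f : Fin r → P := fun x => ((e.symm x : T) : P)⁻¹
  have hrange : Set.range (fun x => (f x)⁻¹) = T := by
    ext g
    constructor
    · rintro ⟨x, rfl⟩
      change ((e.symm x : T) : P)⁻¹⁻¹ ∈ T
      rw [inv_inv]
      exact (e.symm x).2
    · intro hg
      refine ⟨e ⟨g, hg⟩, ?_⟩
      change ((e.symm (e ⟨g, hg⟩) : T) : P)⁻¹⁻¹ = g
      rw [inv_inv, Equiv.symm_apply_apply]
  have hinv : Submonoid.closure (Set.range f) = ⊤ := by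
    rw [eq_top_iff]
    intro g _
    have hg : g⁻¹ ∈ Submonoid.closure T := by rw [hT]; trivial
    have key : ∀ h ∈ Submonoid.closure T, h⁻¹ ∈ Submonoid.closure (Set.range f) := by
      intro h hh
      induction hh using Submonoid.closure_induction with
      | mem x hx =>
        rw [← hrange] at hx
        obtain ⟨y, rfl⟩ := hx
        change (f y)⁻¹⁻¹ ∈ _
        rw [inv_inv]
        exact Submonoid.subset_closure ⟨y, rfl⟩
      | one => rw [inv_one]; exact one_mem _
      | mul a b _ _ ha hb => rw [mul_inv_rev]; exact mul_mem hb ha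
    have := key _ hg
    rwa [inv_inv] at this
  obtain ⟨S, hS, hSf⟩ := ker_fng q q_surj
  have hSf' : Finite S := hS
  obtain ⟨t, ⟨e'⟩⟩ := Finite.exists_equiv_fin S
  let ρ : Fin t → P := fun i => ((e'.symm i : S) : P)
  choose w hw using fun i => exists_word f hinv (ρ i)
  have hρmem : ∀ i, ρ i ∈ q.ker := by
    intro i
    rw [← hSf]
    exact Subgroup.subset_normalClosure (e'.symm i).2
  exact ⟨{
    E := E
    E₁ := E₁
    q := q
    q_surj := q_surj
    qι := qι
    D := {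
      r := r
      α := fun x => E.conj (f x)
      t := t
      w := w
      nn := fun _ => 1
      rel := by
        intro i n
        rw [one_mul, mul_one]
        apply E.ι_inj
        rw [αw_spec E (fun x => E.conj_spec (f x)) (w i), hw, mul_assoc, hcomm _ (hρmem i),
          inv_mul_cancel_left] }
    f := f
    hα := fun x => E.conj_spec (f x)
    gen := by
      rw [hrange, eq_top_iff, ← hT]
      exact Submonoid.closure_mono Set.subset_union_right
    ρ := ρ
    hρ := fun i => by rw [map_one, mul_one]; exact hw i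
    hK := by
      rw [← hSf]
      apply Subgroup.normalClosure_mono
      intro g hg
      exact ⟨e' ⟨g, hg⟩, by change ((e'.symm (e' ⟨g, hg⟩) : S) : P) = g
                            rw [Equiv.symm_apply_apply]⟩ }⟩

end pair

section fibre

variable {Γ₁ Γ₂ Q : Type} [Group Γ₁] [Group Γ₂] [Group Q] (π₁ : Γ₁ →* Q) (π₂ : Γ₂ →* Q)

/-- The fibre product. -/
abbrev Fib : Type :=
  ↥(MonoidHom.eqLocus (π₁.comp (MonoidHom.fst Γ₁ Γ₂)) (π₂.comp (MonoidHom.snd Γ₁ Γ₂)))

/-- the inclusion of the kernel -/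
def fibι : π₁.ker →* Fib π₁ π₂ where
  toFun n := ⟨(n.1, 1), by
    change π₁ n.1 = π₂ 1
    rw [map_one]
    exact n.2⟩
  map_one' := rfl
  map_mul' a b := Subtype.ext (Prod.ext rfl (mul_one _).symm)

/-- The first extension. -/
def fibE (h₁ : Function.Surjective π₁) : Ext π₁.ker (Fib π₁ π₂) Γ₂ where
  ι := fibι π₁ π₂
  π := (MonoidHom.snd Γ₁ Γ₂).comp (Subgroup.subtype _)
  ι_inj := by
    intro a b hab
    exact Subtype.ext (congr_arg (fun x => x.1.1) hab)
  π_surj := by
    intro b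
    obtain ⟨a, ha⟩ := h₁ (π₂ b)
    exact ⟨⟨(a, b), ha⟩, rfl⟩
  exact := by
    rintro ⟨⟨a, b⟩, hab⟩
    constructor
    · intro h
      change b = 1 at h
      subst h
      have h1 : π₁ a = π₂ 1 := hab
      rw [map_one] at h1
      exact ⟨⟨a, h1⟩, rfl⟩
    · rintro ⟨n, hn⟩
      exact (congr_arg (fun x => x.1.2) hn).symm

/-- The second extension. -/
def fibE₁ (h₁ : Function.Surjective π₁) : Ext π₁.ker Γ₁ Q where
  ι := Subgroup.subtype _
  π := π₁
  ι_inj := Subtype.val_injective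
  π_surj := h₁
  exact g := ⟨fun h => ⟨⟨g, h⟩, rfl⟩, by rintro ⟨n, rfl⟩; exact n.2⟩

/-- the projection -/
def fibq : Fib π₁ π₂ →* Γ₁ := (MonoidHom.fst Γ₁ Γ₂).comp (Subgroup.subtype _)

theorem fib_main (h₁ : Function.Surjective π₁) (h₂ : Function.Surjective π₂) (m : ℕ)
    (fN : Group.IsFinitelyPresented π₁.ker) (fΓ₁ : Group.IsFinitelyPresented Γ₁)
    (fΓ₂ : Group.IsFinitelyPresented Γ₂)
    (hN : FP (ZG π₁.ker) (m + 1) (Triv π₁.ker)) (hΓ₁ : FP (ZG Γ₁) (m + 2) (Triv Γ₁))
    (hΓ₂ : FP (ZG Γ₂) (m + 2) (Triv Γ₂)) (hQ : FP (ZG Q) (m + 3) (Triv Q)) :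
    Group.IsFinitelyPresented (Fib π₁ π₂) ∧ FP (ZG (Fib π₁ π₂)) (m + 2) (Triv (Fib π₁ π₂)) := by
  have fP : Group.IsFinitelyPresented (Fib π₁ π₂) :=
    fp_extension (fibE π₁ π₂ h₁).ι (fibE π₁ π₂ h₁).π (fibE π₁ π₂ h₁).ι_inj
      (fibE π₁ π₂ h₁).π_surj (fibE π₁ π₂ h₁).exact (fg_of_fp _)
  refine ⟨fP, ?_⟩
  have hfg : Group.FG (Fib π₁ π₂) := fg_of_fp _
  obtain ⟨S⟩ := exists_pair (fibE π₁ π₂ h₁) (fibE₁ π₁ h₁) (fibq π₁ π₂) (by
    intro a
    obtain ⟨b, hb⟩ := h₂ (π₁ a)
    exact ⟨⟨(a, b), hb.symm⟩, rfl⟩) (fun n => rfl) (by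
    rintro ⟨⟨a, b⟩, hab⟩ hρ n
    have h1 : a = 1 := hρ
    subst h1
    apply Subtype.ext
    refine Prod.ext ?_ ?_
    · change n.1 * 1 = 1 * n.1
      rw [one_mul, mul_one]
    · change 1 * b = b * 1
      rw [one_mul, mul_one])
  exact S.main m hN hΓ₁ hΓ₂ hQ

end fibre

end Pool.Agent.NN
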