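import Mathlib
import Pool.Agent.helper50.NN.Semi

/-!
Partial free resolutions and `FP`.
-/

set_option autoImplicit false

namespace Pool.Agent.NN

section peel

variable {R : Type} [Ring R]

theorem FP.peel : ∀ (m : ℕ) (M : Type) [AddCommGroup M] [Module R M] (k : ℕ → ℕ)
    (e : (Fin (k 0) → R) →ₗ[R] M) (d : ∀ i : ℕ, (Fin (k (i + 1)) → R) →ₗ[R] (Fin (k i) → R)),
    Function.Surjective e → (0 < m → LinearMap.range (d 0) = LinearMap.ker e) →
    (∀ j : ℕ, j + 2 ≤ m → LinearMap.range (d (j + 1)) = LinearMap.ker (d j)) → FP R m M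
  | 0, M, _, _, k, e, d, he, _, _ => Module.Finite.of_surjective e he
  | m + 1, M, _, _, k, e, d, he, h0, h1 => by
    have h0' := h0 (Nat.succ_pos m)
    refine ⟨k 0, e, he, ?_⟩
    let e' : (Fin (k 1) → R) →ₗ[R] LinearMap.ker e :=
      LinearMap.codRestrict (LinearMap.ker e) (d 0) (fun x => by rw [← h0']; exact ⟨x, rfl⟩)
    refine FP.peel m (LinearMap.ker e) (fun i => k (i + 1)) e' (fun i => d (i + 1)) ?_ ?_ ?_
    · rintro ⟨x, hx⟩
      have hx' := hx
      rw [← h0'] at hx'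
      obtain ⟨y, hy⟩ := hx'
      exact ⟨y, Subtype.ext hy⟩
    · intro hm
      rw [LinearMap.ker_codRestrict]
      exact h1 0 (by omega)
    · intro j hj
      exact h1 (j + 1) (by omega)

theorem FP.build : ∀ (m : ℕ) (M : Type) [AddCommGroup M] [Module R M], FP R m M →
    ∃ (k : ℕ → ℕ) (e : (Fin (k 0) → R) →ₗ[R] M)
      (d : ∀ i : ℕ, (Fin (k (i + 1)) → R) →ₗ[R] (Fin (k i) → R)),
    Function.Surjective e ∧ (0 < m → LinearMap.range (d 0) = LinearMap.ker e) ∧
    (∀ j : ℕ, j + 2 ≤ m → LinearMap.range (d (j + 1)) = LinearMap.ker (d j))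
  | 0, M, _, _, h => by
    have h0 : Module.Finite R M := h
    obtain ⟨k, f, hf⟩ := Module.Finite.exists_fin' R M
    exact ⟨fun _ => k, f, fun _ => 0, hf, fun h => absurd h (lt_irrefl 0),
      fun j hj => absurd hj (by omega)⟩
  | m + 1, M, _, _, h => by
    obtain ⟨a, f, hf, hk⟩ := h
    obtain ⟨k', e', d', he', h0', h1'⟩ := FP.build m (LinearMap.ker f) hk
    refine ⟨fun i => Nat.casesOn i a k', f,
      fun i => Nat.casesOn i ((LinearMap.ker f).subtype ∘ₗ e') d', hf, ?_, ?_⟩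
    · intro _
      change LinearMap.range ((LinearMap.ker f).subtype ∘ₗ e') = LinearMap.ker f
      rw [LinearMap.range_comp, LinearMap.range_eq_top.2 he', Submodule.map_top,
        Submodule.range_subtype]
    · intro j hj
      cases j with
      | zero =>
        change LinearMap.range (d' 0) = LinearMap.ker ((LinearMap.ker f).subtype ∘ₗ e')
        rw [h0' (by omega), LinearMap.ker_comp_of_ker_eq_bot _ (Submodule.ker_subtype _)]
      | succ j => exact h1' j (by omega)

end peel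

/-- The homological part of the frozen definition. -/
def HomPart (m : ℕ) (G : Type) [Group G] : Prop :=
  ∃ (k : ℕ → ℕ) (ε : MonoidAlgebra ℤ G →+* ℤ)
    (d : ∀ i : ℕ, (Fin (k (i+1)) → MonoidAlgebra ℤ G) →ₗ[MonoidAlgebra ℤ G]
          (Fin (k i) → MonoidAlgebra ℤ G)),
    (∀ g : G, ε (MonoidAlgebra.of ℤ G g) = 1) ∧
    (∃ x : Fin (k 0) → MonoidAlgebra ℤ G, ∑ j, ε (x j) = 1) ∧
    (0 < m → ∀ x : Fin (k 0) → MonoidAlgebra ℤ G,
        (∑ j, ε (x j) = 0 ↔ x ∈ LinearMap.range (d 0))) ∧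
    (∀ j : ℕ, j + 2 ≤ m → LinearMap.range (d (j+1)) = LinearMap.ker (d j))

variable {G : Type} [Group G]

theorem aug_unique (ε : ZG G →+* ℤ) (h : ∀ g : G, ε (MonoidAlgebra.of ℤ G g) = 1) :
    ε = aug G := by
  apply RingHom.ext
  intro x
  induction x using MonoidAlgebra.induction_on with
  | of g => rw [h, aug_o]
  | add x y hx hy => rw [map_add, map_add, hx, hy]
  | smul c x ih => rw [map_zsmul, map_zsmul, ih]

/-- The sum of the augmentations. -/
noncomputable def augS (G : Type) [Group G] (k : ℕ) : (Fin k → ZG G) →ₗ[ZG G] Triv G where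
  toFun x := (show Triv G from ∑ j, aug G (x j))
  map_add' x y := by
    change (∑ j, aug G (x j + y j) : ℤ) = ∑ j, aug G (x j) + ∑ j, aug G (y j)
    rw [← Finset.sum_add_distrib]
    exact Finset.sum_congr rfl fun j _ => map_add _ _ _
  map_smul' a x := by
    change (∑ j, aug G (a * x j) : ℤ) = aug G a * ∑ j, aug G (x j)
    rw [Finset.mul_sum]
    exact Finset.sum_congr rfl fun j _ => map_mul _ _ _

theorem augS_apply (k : ℕ) (x : Fin k → ZG G) :
    augS G k x = (show Triv G from ∑ j, aug G (x j)) := rfl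

theorem augS_surj {k : ℕ} (h : ∃ x : Fin k → ZG G, ∑ j, aug G (x j) = 1) :
    Function.Surjective (augS G k) := by
  obtain ⟨x, hx⟩ := h
  intro m
  refine ⟨(show ℤ from m) • x, ?_⟩
  rw [map_zsmul]
  change (@id ℤ m) * (∑ j, aug G (x j)) = @id ℤ m
  rw [hx, mul_one]

theorem homPart_to {m : ℕ} (h : HomPart m G) : FP (ZG G) m (Triv G) := by
  obtain ⟨k, ε, d, h1, h2, h3, h4⟩ := h
  obtain rfl := aug_unique ε h1
  refine FP.peel m (Triv G) k (augS G (k 0)) d (augS_surj h2) ?_ h4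
  intro hm
  ext x
  rw [← h3 hm x]
  exact Iff.rfl

theorem homPart_of {m : ℕ} (h : FP (ZG G) (m + 1) (Triv G)) : HomPart (m + 1) G := by
  have hs : ∃ x : Fin 1 → ZG G, ∑ j, aug G (x j) = 1 :=
    ⟨fun _ => 1, by rw [Fin.sum_univ_one, map_one]⟩
  have h1 : FP (ZG G) m (LinearMap.ker (augS G 1)) :=
    FP.ker (augS G 1) (augS_surj hs) (FP.free _ _) h
  obtain ⟨k', e', d', he', h0', h1'⟩ := FP.build m _ h1
  refine ⟨fun i => Nat.casesOn i 1 k', aug G,
      fun i => Nat.casesOn i ((LinearMap.ker (augS G 1)).subtype ∘ₗ e') d', aug_o, hs, ?_, ?_⟩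
  · intro _ x
    change augS G 1 x = 0 ↔ x ∈ LinearMap.range ((LinearMap.ker (augS G 1)).subtype ∘ₗ e')
    rw [LinearMap.range_comp, LinearMap.range_eq_top.2 he', Submodule.map_top,
      Submodule.range_subtype, LinearMap.mem_ker]
  · intro j hj
    cases j with
    | zero =>
      change LinearMap.range (d' 0) = LinearMap.ker ((LinearMap.ker (augS G 1)).subtype ∘ₗ e')
      rw [h0' (by omega), LinearMap.ker_comp_of_ker_eq_bot _ (Submodule.ker_subtype _)]
    | succ j => exact h1' j (by omega)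

end Pool.Agent.NN
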