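import Mathlib
import Pool.Agent.helper50.NN.Fibre
import Pool.Agent.helper50.NN.Frozen

/-!
The homological form of the theorem on fibre products: projective partial resolutions, finite
generation from type `FP_1`, and the fibre product over a finitely presented quotient.
-/

set_option autoImplicit false

namespace Pool.Agent.NN

section proj

variable {R : Type} [Ring R]

theorem FP.proj : ∀ (m : ℕ) (P : Type) [AddCommGroup P] [Module R P] [Module.Finite R P]
    [Module.Projective R P], FP R m P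
  | 0, P, _, _, hf, _ => hf
  | m + 1, P, _, _, _, _ => by
    obtain ⟨k, f, hf⟩ := Module.Finite.exists_fin' R P
    obtain ⟨s, hs⟩ := Module.projective_lifting_property f LinearMap.id hf
    have hs' : ∀ x, f (s x) = x := fun x => LinearMap.congr_fun hs x
    let p : (Fin k → R) →ₗ[R] LinearMap.ker f :=
      LinearMap.codRestrict (LinearMap.ker f) (LinearMap.id - s ∘ₗ f) (fun x => by
        rw [LinearMap.mem_ker, LinearMap.sub_apply, map_sub]
        change f x - f (s (f x)) = 0
        rw [hs', sub_self])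
    have hp : p ∘ₗ (LinearMap.ker f).subtype = LinearMap.id := by
      apply LinearMap.ext
      intro x
      apply Subtype.ext
      change (x : Fin k → R) - s (f x) = x
      rw [LinearMap.mem_ker.1 x.2, map_zero, sub_zero]
    have hp' : Function.Surjective p := fun x => ⟨x, LinearMap.congr_fun hp x⟩
    have h1 : Module.Finite R (LinearMap.ker f) := Module.Finite.of_surjective p hp'
    have h2 : Module.Projective R (LinearMap.ker f) := Module.Projective.of_split _ _ hp
    exact ⟨k, f, hf, FP.proj m (LinearMap.ker f)⟩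

theorem FP.peelP : ∀ (m : ℕ) (M : Type) [AddCommGroup M] [Module R M] (P : ℕ → Type)
    (_ : ∀ i, AddCommGroup (P i)) (_ : ∀ i, Module R (P i))
    (e : P 0 →ₗ[R] M) (d : ∀ i : ℕ, P (i + 1) →ₗ[R] P i),
    (∀ i ≤ m, Module.Finite R (P i) ∧ Module.Projective R (P i)) →
    Function.Surjective e → (0 < m → LinearMap.range (d 0) = LinearMap.ker e) →
    (∀ j : ℕ, j + 2 ≤ m → LinearMap.range (d (j + 1)) = LinearMap.ker (d j)) → FP R m M
  | 0, M, _, _, P, _, _, e, d, hP, he, _, _ => by
    have := (hP 0 le_rfl).1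
    exact Module.Finite.of_surjective e he
  | m + 1, M, _, _, P, iP, jP, e, d, hP, he, h0, h1 => by
    have h0' := h0 (Nat.succ_pos m)
    let e' : P 1 →ₗ[R] LinearMap.ker e :=
      LinearMap.codRestrict (LinearMap.ker e) (d 0) (fun x => by rw [← h0']; exact ⟨x, rfl⟩)
    have hk : FP R m (LinearMap.ker e) := by
      refine FP.peelP m (LinearMap.ker e) (fun i => P (i + 1)) (fun i => iP (i + 1))
        (fun i => jP (i + 1)) e' (fun i => d (i + 1)) (fun i hi => hP (i + 1) (by omega)) ?_ ?_ ?_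
      · rintro ⟨x, hx⟩
        have hx' := hx
        rw [← h0'] at hx'
        obtain ⟨y, hy⟩ := hx'
        exact ⟨y, Subtype.ext hy⟩
      · intro hm
        rw [LinearMap.ker_codRestrict]
        exact h1 0 (by omega)
      · intro j hj
        exact h1 (j + 1) (by omega)
    have h2 := (hP 0 (Nat.zero_le _)).1
    have h3 := (hP 0 (Nat.zero_le _)).2
    exact FP.quot e he hk (FP.proj (m + 1 + 1) (P 0)).of_succ

end proj

section fg

variable {G : Type} [Group G]

theorem mem_span_aug (x : ZG G) :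
    x - (aug G x) • (1 : ZG G) ∈ Submodule.span (ZG G) (Set.range fun g : G => (o g : ZG G) - 1) := by
  induction x using MonoidAlgebra.induction_on with
  | of g =>
    rw [aug_o, one_smul]
    exact Submodule.subset_span ⟨g, rfl⟩
  | add x y hx hy =>
    rw [map_add, add_smul]
    have h : x + y - (aug G x • (1 : ZG G) + aug G y • (1 : ZG G)) =
        (x - aug G x • (1 : ZG G)) + (y - aug G y • (1 : ZG G)) := by abel
    rw [h]
    exact Submodule.add_mem _ hx hy
  | smul c x hx =>
    have h : c • x - aug G (c • x) • (1 : ZG G) = c • (x - aug G x • (1 : ZG G)) := by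
      rw [map_zsmul, smul_sub, smul_assoc]
    rw [h]
    exact Submodule.smul_of_tower_mem _ c hx

theorem ker_aug_eq : LinearMap.ker (augL G) =
    Submodule.span (ZG G) (Set.range fun g : G => (o g : ZG G) - 1) := by
  apply le_antisymm
  · intro x hx
    have h : aug G x = 0 := hx
    have h1 := mem_span_aug x
    rwa [h, zero_smul, sub_zero] at h1
  · rw [Submodule.span_le]
    rintro _ ⟨g, rfl⟩
    change aug G ((o g : ZG G) - 1) = 0
    rw [map_sub, aug_o, map_one, sub_self]

/-- type `FP_1` implies finite generation -/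
theorem fg_of_FP (h : FP (ZG G) 1 (Triv G)) : Group.FG G := by
  classical
  have h2 : FP (ZG G) 0 (ZG G) :=
    (FP.free 0 1).equiv (LinearEquiv.funUnique (Fin 1) (ZG G) (ZG G))
  have h1 : Module.Finite (ZG G) (LinearMap.ker (augL G)) := FP.ker (augL G) (augL_surj G) h2 h
  have h3 : (LinearMap.ker (augL G)).FG := Module.Finite.iff_fg.1 h1
  rw [ker_aug_eq, Submodule.fg_span_iff_fg_span_finset_subset] at h3
  obtain ⟨S, hS, hS'⟩ := h3
  have hS2 : ∀ x ∈ S, ∃ g : G, (o g : ZG G) - 1 = x := fun x hx => hS hx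
  choose! t ht using hS2
  let H : Subgroup G := Subgroup.closure (t '' (S : Set (ZG G)))
  let φ : ZG G →+ ((G ⧸ H) →₀ ℤ) :=
    { toFun := fun x => Finsupp.mapDomain (fun g : G => (QuotientGroup.mk g : G ⧸ H)) x.coeff
      map_zero' := by simp
      map_add' := fun x y => by
        rw [MonoidAlgebra.coeff_add, Finsupp.mapDomain_add] }
  have hφ : ∀ g : G, φ (o g) = Finsupp.single (QuotientGroup.mk g : G ⧸ H) 1 := by
    intro g
    change Finsupp.mapDomain _ (MonoidAlgebra.of ℤ G g).coeff = _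
    simp [MonoidAlgebra.of_apply]
  let J : Submodule (ZG G) (ZG G) :=
    { carrier := {x | ∀ a : ZG G, φ (a * x) = 0}
      zero_mem' := fun a => by rw [mul_zero, map_zero]
      add_mem' := fun {x y} hx hy a => by rw [mul_add, map_add, hx a, hy a, add_zero]
      smul_mem' := fun b x hx a => by
        change φ (a * (b * x)) = 0
        rw [← mul_assoc]
        exact hx _ }
  have hJ : Submodule.span (ZG G) (Set.range fun g : G => (o g : ZG G) - 1) ≤ J := by
    rw [hS', Submodule.span_le]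
    intro x hx a
    have hxt : (o (t x) : ZG G) - 1 = x := ht x hx
    have htH : t x ∈ H := Subgroup.subset_closure ⟨x, hx, rfl⟩
    rw [← hxt]
    induction a using MonoidAlgebra.induction_on with
    | of s =>
      rw [mul_sub, mul_one, ← map_mul, map_sub, hφ, hφ, sub_eq_zero]
      congr 1
      rw [QuotientGroup.eq]
      have : (s * t x)⁻¹ * s = (t x)⁻¹ := by group
      rw [this]
      exact H.inv_mem htH
    | add a b ha hb => rw [add_mul, map_add, ha, hb, add_zero]
    | smul c a ha => rw [smul_mul_assoc, map_zsmul, ha, smul_zero]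
  have hH : H = ⊤ := by
    rw [eq_top_iff]
    intro g _
    have h5 := hJ (Submodule.subset_span ⟨g, rfl⟩) 1
    rw [one_mul, map_sub, hφ, ← map_one (o : G →* ZG G), hφ, sub_eq_zero] at h5
    have h6 := Finsupp.single_left_injective (one_ne_zero : (1 : ℤ) ≠ 0) h5
    have h7 := QuotientGroup.eq.1 h6.symm
    simpa using h7
  rw [Group.fg_iff]
  exact ⟨_, hH, (S.finite_toSet.image t)⟩

theorem fg_extension {N G H : Type} [Group N] [Group G] [Group H] (ι : N →* G) (π : G →* H)
    (hπ : Function.Surjective π) (hex : ∀ g, π g = 1 → ∃ n, ι n = g) (hN : Group.FG N)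
    (hH : Group.FG H) : Group.FG G := by
  obtain ⟨S, hS, hSf⟩ := Group.fg_iff.1 hN
  obtain ⟨T, hT, hTf⟩ := Group.fg_iff.1 hH
  choose l hl using hπ
  let K : Subgroup G := Subgroup.closure (ι '' S ∪ l '' T)
  have h1 : ∀ n, ι n ∈ K := by
    intro n
    have h2 : (⊤ : Subgroup N) ≤ K.comap ι := by
      rw [← hS, Subgroup.closure_le]
      intro s hs
      exact Subgroup.subset_closure (Or.inl ⟨s, hs, rfl⟩)
    exact h2 (Subgroup.mem_top n)
  have h3 : K.map π = ⊤ := by
    rw [eq_top_iff, ← hT, Subgroup.closure_le]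
    intro t ht
    exact ⟨l t, Subgroup.subset_closure (Or.inr ⟨t, ht, rfl⟩), hl t⟩
  rw [Group.fg_iff]
  refine ⟨ι '' S ∪ l '' T, ?_, (hSf.image _).union (hTf.image _)⟩
  rw [eq_top_iff]
  intro g _
  have h4 : π g ∈ K.map π := by rw [h3]; exact Subgroup.mem_top _
  obtain ⟨k, hk, hkg⟩ := h4
  obtain ⟨n, hn⟩ := hex (k⁻¹ * g) (by rw [map_mul, map_inv, hkg, inv_mul_cancel])
  have h5 : g = k * ι n := by rw [hn, mul_inv_cancel_left]
  rw [h5]
  exact K.mul_mem hk (h1 n)

end fg

section pair

variable {N P H Γ Q : Type} [Group N] [Group P] [Group H] [Group Γ] [Group Q]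

theorem exists_pair' (E : Ext N P H) (E₁ : Ext N Γ Q) (q : P →* Γ)
    (q_surj : Function.Surjective q) (qι : ∀ n, q (E.ι n) = E₁.ι n) [hP : Group.FG P]
    (hK : q.ker.IsFinitelyNormallyGenerated)
    (hcomm : ∀ ρ ∈ q.ker, ∀ n, E.ι n * ρ = ρ * E.ι n) :
    Nonempty (Pair N P H Γ Q) := by
  obtain ⟨T, hT, hTfin⟩ := Monoid.fg_iff.1 ((Group.fg_iff_monoid_fg (G := P)).1 hP)
  have hTf : Finite T := hTfin
  obtain ⟨r, ⟨e⟩⟩ := Finite.exists_equiv_fin T
  let f : Fin r → P := fun x => ((e.symm x : T) : P)⁻¹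
  have hrange : Set.range (fun x => (f x)⁻¹) = T := by
    ext g
    constructor
    · rintro ⟨x, rfl⟩
      change ((e.symm x : T) : P)⁻¹⁻¹ ∈ T
      rw [inv_inv]
      exact (e.symm x).2
    · intro hg
      refine ⟨e ⟨g, hg⟩, ?_⟩
      change ((e.symm (e ⟨g, hg⟩) : T) : P)⁻¹⁻¹ = g
      rw [inv_inv, Equiv.symm_apply_apply]
  have hinv : Submonoid.closure (Set.range f) = ⊤ := by
    rw [eq_top_iff]
    intro g _
    have hg : g⁻¹ ∈ Submonoid.closure T := by rw [hT]; trivial
    have key : ∀ h ∈ Submonoid.closure T, h⁻¹ ∈ Submonoid.closure (Set.range f) := by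
      intro h hh
      induction hh using Submonoid.closure_induction with
      | mem x hx =>
        rw [← hrange] at hx
        obtain ⟨y, rfl⟩ := hx
        change (f y)⁻¹⁻¹ ∈ _
        rw [inv_inv]
        exact Submonoid.subset_closure ⟨y, rfl⟩
      | one => rw [inv_one]; exact one_mem _
      | mul a b _ _ ha hb => rw [mul_inv_rev]; exact mul_mem hb ha
    have := key _ hg
    rwa [inv_inv] at this
  obtain ⟨S, hS, hSf⟩ := hK
  have hSf' : Finite S := hS
  obtain ⟨t, ⟨e'⟩⟩ := Finite.exists_equiv_fin S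
  let ρ : Fin t → P := fun i => ((e'.symm i : S) : P)
  choose w hw using fun i => exists_word f hinv (ρ i)
  have hρmem : ∀ i, ρ i ∈ q.ker := by
    intro i
    rw [← hSf]
    exact Subgroup.subset_normalClosure (e'.symm i).2
  exact ⟨{
    E := E
    E₁ := E₁
    q := q
    q_surj := q_surj
    qι := qι
    D := {
      r := r
      α := fun x => E.conj (f x)
      t := t
      w := w
      nn := fun _ => 1
      rel := by
        intro i n
        rw [one_mul, mul_one]
        apply E.ι_inj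
        rw [αw_spec E (fun x => E.conj_spec (f x)) (w i), hw, mul_assoc, hcomm _ (hρmem i),
          inv_mul_cancel_left] }
    f := f
    hα := fun x => E.conj_spec (f x)
    gen := by
      rw [hrange, eq_top_iff, ← hT]
      exact Submonoid.closure_mono Set.subset_union_right
    ρ := ρ
    hρ := fun i => by rw [map_one, mul_one]; exact hw i
    hK := by
      rw [← hSf]
      apply Subgroup.normalClosure_mono
      intro g hg
      exact ⟨e' ⟨g, hg⟩, by change ((e'.symm (e' ⟨g, hg⟩) : S) : P) = g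
                            rw [Equiv.symm_apply_apply]⟩ }⟩

end pair

section fibre

variable {Γ₁ Γ₂ Q : Type} [Group Γ₁] [Group Γ₂] [Group Q] (π₁ : Γ₁ →* Q) (π₂ : Γ₂ →* Q)

/-- the inclusion of the second kernel -/
def fibj : π₂.ker →* Fib π₁ π₂ where
  toFun n := ⟨(1, n.1), by
    change π₁ 1 = π₂ n.1
    rw [map_one]
    exact n.2.symm⟩
  map_one' := rfl
  map_mul' a b := Subtype.ext (Prod.ext (mul_one _).symm rfl)

theorem fib_ker_fng (h₁ : Function.Surjective π₁) (h : π₂.ker.IsFinitelyNormallyGenerated) :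
    (fibq π₁ π₂).ker.IsFinitelyNormallyGenerated := by
  obtain ⟨S, hS, hSn⟩ := h
  refine ⟨fibj π₁ π₂ '' {s | (s : Γ₂) ∈ S}, ?_, ?_⟩
  · exact (hS.preimage Subtype.val_injective.injOn).image _
  · apply le_antisymm
    · apply Subgroup.normalClosure_le_normal
      rintro _ ⟨s, _, rfl⟩
      rfl
    · set K := Subgroup.normalClosure (fibj π₁ π₂ '' {s | (s : Γ₂) ∈ S}) with hKdef
      have hSker : ∀ s ∈ S, s ∈ π₂.ker := by
        intro s hs
        rw [← hSn]
        exact Subgroup.subset_normalClosure hs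
      let L : Subgroup Γ₂ := (K.comap (fibj π₁ π₂)).map π₂.ker.subtype
      have hL : ∀ b, b ∈ L ↔ ∃ hb : b ∈ π₂.ker, fibj π₁ π₂ ⟨b, hb⟩ ∈ K := by
        intro b
        constructor
        · rintro ⟨x, hx, rfl⟩
          exact ⟨x.2, hx⟩
        · rintro ⟨hb, hK⟩
          exact ⟨⟨b, hb⟩, hK, rfl⟩
      have hLn : L.Normal := by
        refine ⟨fun b hb g => ?_⟩
        rw [hL] at hb ⊢
        obtain ⟨hb, hK⟩ := hb
        refine ⟨(inferInstance : π₂.ker.Normal).conj_mem b hb g, ?_⟩
        obtain ⟨a, ha⟩ := h₁ (π₂ g)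
        have h2 := (inferInstance : K.Normal).conj_mem _ hK ⟨(a, g), ha⟩
        have h3 : fibj π₁ π₂ ⟨g * b * g⁻¹, (inferInstance : π₂.ker.Normal).conj_mem b hb g⟩ =
            (⟨(a, g), ha⟩ : Fib π₁ π₂) * fibj π₁ π₂ ⟨b, hb⟩ * (⟨(a, g), ha⟩ : Fib π₁ π₂)⁻¹ := by
          apply Subtype.ext
          refine Prod.ext ?_ rfl
          change (1 : Γ₁) = a * 1 * a⁻¹
          rw [mul_one, mul_inv_cancel]
        rw [h3]
        exact h2
      have hSL : Subgroup.normalClosure S ≤ L := by
        apply Subgroup.normalClosure_le_normal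
        intro s hs
        rw [SetLike.mem_coe, hL]
        exact ⟨hSker s hs, Subgroup.subset_normalClosure ⟨⟨s, hSker s hs⟩, hs, rfl⟩⟩
      rintro ⟨⟨a, b⟩, hab⟩ hq
      have ha : a = 1 := hq
      subst ha
      have hb : b ∈ π₂.ker := by
        have h5 : π₁ 1 = π₂ b := hab
        rw [map_one] at h5
        exact h5.symm
      rw [← hSn] at hb
      obtain ⟨_, hK⟩ := (hL b).1 (hSL hb)
      exact hK

/-- the homological theorem on fibre products -/
theorem fib_hom (h₁ : Function.Surjective π₁) (h₂ : Function.Surjective π₂) (m : ℕ)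
    (hN : FP (ZG π₁.ker) (m + 1) (Triv π₁.ker)) (hΓ₁ : FP (ZG Γ₁) (m + 2) (Triv Γ₁))
    (hΓ₂ : FP (ZG Γ₂) (m + 2) (Triv Γ₂)) (hQ : FP (ZG Q) (m + 3) (Triv Q))
    (hK : π₂.ker.IsFinitelyNormallyGenerated) :
    FP (ZG (Fib π₁ π₂)) (m + 2) (Triv (Fib π₁ π₂)) := by
  have fN : Group.FG π₁.ker := fg_of_FP (hN.mono (by omega))
  have fΓ₂ : Group.FG Γ₂ := fg_of_FP (hΓ₂.mono (by omega))
  have hfg : Group.FG (Fib π₁ π₂) :=
    fg_extension (fibE π₁ π₂ h₁).ι (fibE π₁ π₂ h₁).π (fibE π₁ π₂ h₁).π_surj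
      (fun g hg => ((fibE π₁ π₂ h₁).exact g).1 hg) fN fΓ₂
  obtain ⟨S⟩ := exists_pair' (fibE π₁ π₂ h₁) (fibE₁ π₁ h₁) (fibq π₁ π₂) (by
    intro a
    obtain ⟨b, hb⟩ := h₂ (π₁ a)
    exact ⟨⟨(a, b), hb.symm⟩, rfl⟩) (fun n => rfl) (fib_ker_fng π₁ π₂ h₁ hK) (by
    rintro ⟨⟨a, b⟩, hab⟩ hρ n
    have h1 : a = 1 := hρ
    subst h1
    apply Subtype.ext
    refine Prod.ext ?_ ?_
    · change n.1 * 1 = 1 * n.1
      rw [one_mul, mul_one]
    · change 1 * b = b * 1
      rw [one_mul, mul_one])
  exact S.main m hN hΓ₁ hΓ₂ hQ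

end fibre

end Pool.Agent.NN
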